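import Pool.Agent.Q235.D2.Loc

/-!
# Exponential moments of the number of intersections of two independent walks
-/

set_option autoImplicit false

open scoped BigOperators
open Filter

namespace Pool.Agent.Q235.D2

variable {A : Type*} [AddCommGroup A]

theorem Ex_tendsto (s : Fin 4 → A) : ∀ (n : ℕ) (x : A) (F : ℕ → List A → ℝ) (G : List A → ℝ),
    (∀ l, Tendsto (fun k => F k l) atTop (nhds (G l))) →
    Tendsto (fun k => Ex s n x (F k)) atTop (nhds (Ex s n x G))
  | 0, x, F, G, h => h _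
  | n + 1, x, F, G, h => by
    simp only [Ex_succ]
    refine Tendsto.const_mul _ (tendsto_finsetSum _ fun i _ => ?_)
    exact Ex_tendsto s n (x + s i) (fun k l => F k (x :: l)) (fun l => G (x :: l)) fun l => h _

theorem pow_le_fact (m : ℕ) : (m : ℝ) ^ m ≤ Real.exp m * m.factorial := by
  have h := Real.pow_div_factorial_le_exp (m : ℝ) (Nat.cast_nonneg m) m
  have hf : (0 : ℝ) < m.factorial := by exact_mod_cast Nat.factorial_pos m
  rwa [div_le_iff₀ hf] at h

variable [DecidableEq A] [Fintype A]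

theorem Jn_le (l l' : List A) : Jn l l' ≤ (l.length : ℝ) * l'.length := by
  unfold Jn
  have h1 : ∑ y, (l.count y : ℝ) = l.length := by
    have := List.sum_toFinset_count_eq_length l
    have h2 : ∑ y, l.count y = l.length := by
      rw [← this]
      symm
      refine Finset.sum_subset (Finset.subset_univ _) fun y _ hy => ?_
      rw [List.mem_toFinset] at hy
      exact List.count_eq_zero_of_not_mem hy
    exact_mod_cast h2
  rw [← h1, Finset.sum_mul]
  refine Finset.sum_le_sum fun y _ => mul_le_mul_of_nonneg_left ?_ (Nat.cast_nonneg _)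
  exact_mod_cast List.count_le_length

theorem moment_large (s : Fin 4 → A) (n m : ℕ) (hm : 2 * (n + 1) ≤ m) (x x' : A) :
    Ex s n x (fun l => Ex s n x' (fun l' => Jn l l' ^ m)) ≤
      (m.factorial : ℝ) * (11 * ((n : ℝ) + 1)) ^ m := by
  have h1 : Ex s n x (fun l => Ex s n x' (fun l' => Jn l l' ^ m)) ≤
      (((n : ℝ) + 1) * ((n : ℝ) + 1)) ^ m := by
    rw [← Ex_const s ((((n : ℝ) + 1) * ((n : ℝ) + 1)) ^ m) n x]
    refine Ex_mono s n x _ _ fun l hl => ?_
    rw [← Ex_const s ((((n : ℝ) + 1) * ((n : ℝ) + 1)) ^ m) n x']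
    refine Ex_mono s n x' _ _ fun l' hl' => ?_
    refine pow_le_pow_left₀ (Jn_nonneg _ _) ?_ m
    have := Jn_le (x :: l) (x' :: l')
    rw [List.length_cons, List.length_cons, hl, hl'] at this
    push_cast at this
    exact this
  refine h1.trans ?_
  have h2 : ((n : ℝ) + 1) * ((n : ℝ) + 1) * 3 ≤ (m : ℝ) * (11 * ((n : ℝ) + 1)) := by
    have h3 : (2 : ℝ) * ((n : ℝ) + 1) ≤ m := by exact_mod_cast hm
    have h4 : (0 : ℝ) < (n : ℝ) + 1 := by positivity
    nlinarith
  have h5 := pow_le_pow_left₀ (by positivity) h2 m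
  rw [mul_pow, mul_pow (m : ℝ)] at h5
  have h6 := pow_le_fact m
  have h7 : Real.exp m ≤ 3 ^ m := by
    have h8 : Real.exp 1 ≤ 3 := by
      have := Real.exp_one_lt_d9
      linarith
    have h9 := pow_le_pow_left₀ (Real.exp_pos 1).le h8 m
    rwa [← Real.exp_nat_mul, mul_one] at h9
  have h10 : (0 : ℝ) < m.factorial := by exact_mod_cast Nat.factorial_pos m
  have h11 : (0 : ℝ) < (11 * ((n : ℝ) + 1)) ^ m := by positivity
  have h12 : (m : ℝ) ^ m * (11 * ((n : ℝ) + 1)) ^ m ≤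
      3 ^ m * ((m.factorial : ℝ) * (11 * ((n : ℝ) + 1)) ^ m) := by
    calc (m : ℝ) ^ m * (11 * ((n : ℝ) + 1)) ^ m
        ≤ (Real.exp m * m.factorial) * (11 * ((n : ℝ) + 1)) ^ m :=
          mul_le_mul_of_nonneg_right h6 h11.le
      _ ≤ (3 ^ m * m.factorial) * (11 * ((n : ℝ) + 1)) ^ m :=
          mul_le_mul_of_nonneg_right (mul_le_mul_of_nonneg_right h7 h10.le) h11.le
      _ = _ := by ring
  have h13 : (0 : ℝ) < 3 ^ m := by positivity
  have h14 := h5.trans h12
  rw [mul_comm] at h14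
  exact le_of_mul_le_mul_left h14 h13

theorem moment_small (s : Fin 4 → A) (nu : Fin 4 ≃ Fin 4) (hs : ∀ i, s (nu i) = -s i) (n : ℕ)
    (hp : ∀ t, t ≤ 2 * n → ∀ x, pk s t x x ≤ 1 / ((t : ℝ) + 1)) (m : ℕ) (hm0 : 1 ≤ m)
    (hm : m ≤ 2 * (n + 1)) (x x' : A) :
    Ex s n x (fun l => Ex s n x' (fun l' => Jn l l' ^ m)) ≤
      (m.factorial : ℝ) * (11 * ((n : ℝ) + 1)) ^ m := by
  set N : ℝ := (n : ℝ) + 1 with hN
  have hN0 : 0 < N := by positivity
  set κ : ℝ := m / (2 * N) with hκ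
  have hm0' : (1 : ℝ) ≤ m := by exact_mod_cast hm0
  have hm' : (m : ℝ) ≤ 2 * N := by rw [hN]; exact_mod_cast hm
  have hκ0 : 0 < κ := by positivity
  have hκ1 : κ ≤ 1 := by rw [hκ, div_le_one (by positivity)]; exact hm'
  set q : ℝ := Real.exp (-κ) with hq
  have hq0 : 0 < q := Real.exp_pos _
  have hq1 : q < 1 := by rw [hq, Real.exp_lt_one_iff]; linarith
  have hqk : q ≤ 1 - κ / 2 := by
    have h1 : (1 + κ) * q ≤ 1 := by
      have h2 := Real.add_one_le_exp κ
      have h3 : Real.exp κ * q = 1 := by rw [hq, ← Real.exp_add]; simp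
      nlinarith
    nlinarith
  have hG : ∀ x, ∑ y, gk s q n x y ^ 2 ≤ 4 * N / m := by
    intro x
    refine (gk_sq s nu hs hq0.le hq1 n hp x).trans ?_
    have h1 : κ / 2 ≤ 1 - q := by linarith
    calc 1 / (1 - q) ≤ 1 / (κ / 2) := one_div_le_one_div_of_le (by positivity) h1
      _ = 4 * N / m := by
        rw [hκ]
        field_simp
        norm_num
  have h1 := moment s hq0.le hq1.le n (by positivity : 0 ≤ 4 * N / m) hG m x x'
  have h2 : Real.exp (-(m : ℝ)) ≤ q ^ n * q ^ n := by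
    rw [← pow_add, hq, ← Real.exp_nat_mul]
    refine Real.exp_le_exp.2 ?_
    push_cast
    have h3 : ((n : ℝ) + n) * κ ≤ m := by
      have h4 : (2 * N) * κ = m := by rw [hκ]; field_simp
      have h5 : (n : ℝ) + n ≤ 2 * N := by rw [hN]; linarith
      nlinarith
    nlinarith
  set E := Ex s n x (fun l => Ex s n x' (fun l' => Jn l l' ^ m)) with hE
  have hE0 : 0 ≤ E := Ex_nonneg s n x _ fun l _ => Ex_nonneg s n x' _ fun l' _ =>
    pow_nonneg (Jn_nonneg _ _) m
  have h3 : Real.exp (-(m : ℝ)) * E ≤ (m.factorial : ℝ) ^ 2 * (4 * N / m) ^ m :=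
    (mul_le_mul_of_nonneg_right h2 hE0).trans h1
  have h4 : E ≤ Real.exp m * ((m.factorial : ℝ) ^ 2 * (4 * N / m) ^ m) := by
    have h5 := mul_le_mul_of_nonneg_left h3 (Real.exp_pos (m : ℝ)).le
    rw [← mul_assoc, ← Real.exp_add] at h5
    simpa using h5
  have h6 : (m.factorial : ℝ) ≤ (m : ℝ) ^ m := by exact_mod_cast Nat.factorial_le_pow m
  have h7 : Real.exp m * (4 * N) ^ m ≤ (11 * N) ^ m := by
    have h8 : Real.exp 1 * (4 * N) ≤ 11 * N := by
      have := Real.exp_one_lt_d9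
      nlinarith
    have h9 := pow_le_pow_left₀ (by positivity) h8 m
    rwa [mul_pow, ← Real.exp_nat_mul, mul_one] at h9
  have hmm : (0 : ℝ) < (m : ℝ) ^ m := by positivity
  have hf : (0 : ℝ) < m.factorial := by exact_mod_cast Nat.factorial_pos m
  calc E ≤ Real.exp m * ((m.factorial : ℝ) ^ 2 * (4 * N / m) ^ m) := h4
    _ = ((m.factorial : ℝ) / (m : ℝ) ^ m) * ((m.factorial : ℝ) * (Real.exp m * (4 * N) ^ m)) := by
        rw [div_pow]
        field_simp
    _ ≤ 1 * ((m.factorial : ℝ) * (Real.exp m * (4 * N) ^ m)) := by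
        refine mul_le_mul_of_nonneg_right ?_ (by positivity)
        rw [div_le_one hmm]
        exact h6
    _ ≤ (m.factorial : ℝ) * (11 * N) ^ m := by
        rw [one_mul]
        exact mul_le_mul_of_nonneg_left h7 hf.le

theorem moment_all (s : Fin 4 → A) (nu : Fin 4 ≃ Fin 4) (hs : ∀ i, s (nu i) = -s i) (n : ℕ)
    (hp : ∀ t, t ≤ 2 * n → ∀ x, pk s t x x ≤ 1 / ((t : ℝ) + 1)) (m : ℕ) (x x' : A) :
    Ex s n x (fun l => Ex s n x' (fun l' => Jn l l' ^ m)) ≤
      (m.factorial : ℝ) * (11 * ((n : ℝ) + 1)) ^ m := by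
  rcases Nat.eq_zero_or_pos m with rfl | hm0
  · simp only [pow_zero]
    rw [show (fun _ : List A => Ex s n x' fun _ => (1 : ℝ)) = fun _ => (1 : ℝ) from
      funext fun _ => Ex_const s 1 n x', Ex_const]
    simp
  · rcases le_total m (2 * (n + 1)) with h | h
    · exact moment_small s nu hs n hp m hm0 h x x'
    · exact moment_large s n m h x x'

/-- the exponential moment of the number of intersections -/
theorem expo (s : Fin 4 → A) (nu : Fin 4 ≃ Fin 4) (hs : ∀ i, s (nu i) = -s i) (n : ℕ)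
    (hp : ∀ t, t ≤ 2 * n → ∀ x, pk s t x x ≤ 1 / ((t : ℝ) + 1)) (β : ℝ) (hβ0 : 0 ≤ β)
    (hβ : 22 * ((n : ℝ) + 1) * β ≤ 1) (x x' : A) :
    Ex s n x (fun l => Ex s n x' (fun l' => Real.exp (β * Jn l l'))) ≤
      1 + 22 * ((n : ℝ) + 1) * β := by
  set N : ℝ := (n : ℝ) + 1 with hN
  have hN0 : 0 < N := by positivity
  have h1 : ∀ l l' : List A, Tendsto (fun k : ℕ => ∑ m ∈ Finset.range k,
      (β * Jn l l') ^ m / (m.factorial : ℝ)) atTop (nhds (Real.exp (β * Jn l l'))) := by
    intro l l'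
    have := (NormedSpace.expSeries_div_hasSum_exp (𝔸 := ℝ) (β * Jn l l')).tendsto_sum_nat
    rwa [← Real.exp_eq_exp_ℝ] at this
  have h2 := Ex_tendsto s n x (fun k l => Ex s n x' (fun l' => ∑ m ∈ Finset.range k,
      (β * Jn l l') ^ m / (m.factorial : ℝ)))
      (fun l => Ex s n x' (fun l' => Real.exp (β * Jn l l')))
      (fun l => Ex_tendsto s n x' (fun k l' => ∑ m ∈ Finset.range k,
        (β * Jn l l') ^ m / (m.factorial : ℝ)) _ fun l' => h1 l l')
  refine le_of_tendsto h2 (Eventually.of_forall fun k => ?_)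
  have h3 : Ex s n x (fun l => Ex s n x' (fun l' => ∑ m ∈ Finset.range k,
      (β * Jn l l') ^ m / (m.factorial : ℝ))) = ∑ m ∈ Finset.range k,
      (β ^ m / (m.factorial : ℝ)) * Ex s n x (fun l => Ex s n x' (fun l' => Jn l l' ^ m)) := by
    have h4 : (fun l => Ex s n x' (fun l' => ∑ m ∈ Finset.range k,
        (β * Jn l l') ^ m / (m.factorial : ℝ))) = fun l => ∑ m ∈ Finset.range k,
        (β ^ m / (m.factorial : ℝ)) * Ex s n x' (fun l' => Jn l l' ^ m) := by
      funext l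
      rw [Ex_sum]
      refine Finset.sum_congr rfl fun m _ => ?_
      rw [← Ex_smul]
      congr 1
      funext l'
      rw [mul_pow]
      ring
    rw [h4, Ex_sum]
    exact Finset.sum_congr rfl fun m _ => Ex_smul s _ n x _
  rw [h3]
  have h5 : ∀ m ∈ Finset.range k, (β ^ m / (m.factorial : ℝ)) *
      Ex s n x (fun l => Ex s n x' (fun l' => Jn l l' ^ m)) ≤ (11 * N * β) ^ m := by
    intro m _
    have hf : (0 : ℝ) < m.factorial := by exact_mod_cast Nat.factorial_pos m
    calc (β ^ m / (m.factorial : ℝ)) * Ex s n x (fun l => Ex s n x' (fun l' => Jn l l' ^ m))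
        ≤ (β ^ m / (m.factorial : ℝ)) * ((m.factorial : ℝ) * (11 * N) ^ m) :=
          mul_le_mul_of_nonneg_left (moment_all s nu hs n hp m x x') (by positivity)
      _ = (11 * N * β) ^ m := by
          rw [mul_pow (11 * N) β]
          field_simp
  refine (Finset.sum_le_sum h5).trans ?_
  have hr : 11 * N * β ≤ 1 / 2 := by linarith
  have hr0 : 0 ≤ 11 * N * β := by positivity
  refine (geo_le hr0 (by linarith) k).trans ?_
  rw [div_le_iff₀ (by linarith)]
  nlinarith

end Pool.Agent.Q235.D2
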