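import Pool.Agent.Q235.D2.Pot
import Pool.Agent.H4R2.LO.Main

/-!
# Localization near the band edges in dimension two
-/

set_option autoImplicit false

open scoped BigOperators ENNReal
open Filter MeasureTheory

namespace Pool.Agent.Q235.D2

open Pool.Agent.H4R2.LO (Zd)

theorem inv_le_exp {η : ℝ} (h0 : 0 ≤ η) (h1 : η ≤ 1) : (1 + η)⁻¹ ≤ Real.exp (-(η / 2)) := by
  rw [inv_le_iff_one_le_mul₀ (by linarith)]
  have h2 := Real.add_one_le_exp (-(η / 2))
  nlinarith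

/-- the numerical part -/
theorem numer (C lam : ℝ) (hC : 1 ≤ C) (hl0 : 0 < lam) (hl : lam ≤ 1 / (80 * (3 * C + 2))) :
    ∃ (k L : ℕ) (η : ℝ), 0 ≤ η ∧ 0 < L ∧ 2 * 2 ^ k < L ∧
      44 * 2 ^ k * (3 / 32 * lam ^ 2) ≤ 1 ∧
      (2 / (lam ^ 2 * lam)) ^ C ≤ L ∧
      (2 / (lam ^ 2 * lam)) ^ C * ((L : ℝ) ^ 2 * ((1 + η)⁻¹ ^ (2 ^ k) *
        Real.exp ((22 * k + 1) * 2 ^ k * (3 / 32 * lam ^ 2)))) ≤ 1 ∧
      4 * η + lam ^ 2 ≤ (320 * (3 * C + 2) + 2) * lam ^ 2 * Real.log (1 / lam) ∧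
      lam / ((320 * (3 * C + 2) + 2) * Real.log (1 / lam)) ≤
        Real.sqrt (lam ^ 2) / (C * Real.log (2 / (lam ^ 2 * lam))) := by
  have hlam400 : lam ≤ 1 / 400 := by
    refine hl.trans (one_div_le_one_div_of_le (by norm_num) ?_)
    linarith
  set K' : ℝ := 20 * (3 * C + 2) with hK'
  have hK'0 : 100 ≤ K' := by rw [hK']; linarith
  have hl' : 4 * K' * lam ≤ 1 := by
    have h1 : 0 < 80 * (3 * C + 2) := by linarith
    have h2 := (le_div_iff₀ h1).1 hl
    rw [hK']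
    linarith
  set Y : ℝ := 2 / (lam ^ 2 * lam) with hY
  have hlam3 : 0 < lam ^ 2 * lam := by positivity
  have hYpos : 0 < Y := by positivity
  have hY16 : 16 ≤ Y := by
    rw [hY, le_div_iff₀ hlam3]
    have h1 : lam ^ 2 ≤ (1 / 400) ^ 2 := pow_le_pow_left₀ hl0.le hlam400 2
    nlinarith
  set ℓ : ℝ := Real.log (1 / lam) with hℓ
  have hlog2 := Real.log_two_gt_d9
  have hlog2' := Real.log_two_lt_d9
  have hℓ2 : Real.log 2 ≤ ℓ := by
    rw [hℓ]
    refine Real.log_le_log (by norm_num) ?_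
    rw [le_div_iff₀ hl0]
    linarith
  have hlogY : Real.log Y = Real.log 2 + 3 * ℓ := by
    rw [hY, hℓ, Real.log_div (by norm_num) hlam3.ne', Real.log_mul (by positivity) hl0.ne',
      Real.log_pow, Real.log_div (by norm_num) hl0.ne', Real.log_one]
    push_cast
    ring
  have hlogY4 : Real.log Y ≤ 4 * ℓ := by rw [hlogY]; linarith
  have hlogY2 : 2 ≤ Real.log Y := by rw [hlogY]; linarith
  have hℓlam : ℓ * lam ≤ 1 := by
    have h1 := Real.log_le_sub_one_of_pos (x := 1 / lam) (by positivity)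
    have h2 : ℓ ≤ 1 / lam := by rw [hℓ]; linarith
    calc ℓ * lam ≤ 1 / lam * lam := mul_le_mul_of_nonneg_right h2 hl0.le
      _ = 1 := by field_simp
  set η : ℝ := K' * lam ^ 2 * Real.log Y with hη
  have hη0 : 0 ≤ η := by positivity
  have hη1 : η ≤ 1 := by
    have hK0 : 0 ≤ K' * lam ^ 2 := by positivity
    calc η ≤ K' * lam ^ 2 * (4 * ℓ) := mul_le_mul_of_nonneg_left hlogY4 hK0
      _ = (4 * K' * lam) * (ℓ * lam) := by ring
      _ ≤ 1 * 1 := mul_le_mul hl' hℓlam (by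
          have : 0 ≤ ℓ := by linarith
          positivity) (by norm_num)
      _ = 1 := by norm_num
  set L : ℕ := ⌈Y ^ C⌉₊ with hL
  have hYC : Y ≤ Y ^ C := by
    have := Real.rpow_le_rpow_of_exponent_le (by linarith : 1 ≤ Y) hC
    rwa [Real.rpow_one] at this
  have hYC0 : 0 < Y ^ C := by positivity
  have hLge : Y ^ C ≤ L := Nat.le_ceil _
  have hLle : (L : ℝ) ≤ 2 * Y ^ C := by
    have := Nat.ceil_lt_add_one hYC0.le
    rw [← hL] at this
    linarith
  have hx : (1 : ℝ) ≤ 1 / (5 * lam ^ 2) := by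
    rw [le_div_iff₀ (by positivity)]
    have h1 : lam ^ 2 ≤ (1 / 400) ^ 2 := pow_le_pow_left₀ hl0.le hlam400 2
    linarith
  obtain ⟨k, hk1, hk2⟩ := exists_nat_pow_near hx (by norm_num : (1 : ℝ) < 2)
  have hk1' : 2 ^ k * lam ^ 2 ≤ 1 / 5 := by
    rw [le_div_iff₀ (by positivity)] at hk1
    linarith
  have hk2' : 1 / 10 ≤ 2 ^ k * lam ^ 2 := by
    rw [div_lt_iff₀ (by positivity), pow_succ] at hk2
    linarith
  have hkY : (2 : ℝ) * 2 ^ k < Y := by
    rw [hY, lt_div_iff₀ hlam3]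
    nlinarith
  have hklog : (k : ℝ) * Real.log 2 ≤ Real.log Y := by
    rw [← Real.log_pow]
    refine Real.log_le_log (by positivity) ?_
    have : (0 : ℝ) < 2 ^ k := by positivity
    linarith
  refine ⟨k, L, η, hη0, ?_, ?_, ?_, hLge, ?_, ?_, ?_⟩
  · have : (0 : ℝ) < L := by linarith
    exact_mod_cast this
  · have : (2 : ℝ) * 2 ^ k < L := by linarith
    exact_mod_cast this
  · nlinarith
  · have h1 : (1 + η)⁻¹ ^ (2 ^ k) ≤ Real.exp (-((3 * C + 2) * Real.log Y)) := by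
      have h2 := pow_le_pow_left₀ (by positivity) (inv_le_exp hη0 hη1) (2 ^ k)
      refine h2.trans ?_
      rw [← Real.exp_nat_mul]
      refine Real.exp_le_exp.2 ?_
      push_cast
      have h3 : (3 * C + 2) * Real.log Y ≤ 2 ^ k * (η / 2) := by
        have h4 : 2 ^ k * (η / 2) = (2 ^ k * lam ^ 2) * (K' * Real.log Y / 2) := by
          rw [hη]
          ring
        rw [h4]
        have h5 : 0 ≤ K' * Real.log Y / 2 := by positivity
        calc (3 * C + 2) * Real.log Y = 1 / 10 * (K' * Real.log Y / 2) := by rw [hK']; ring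
          _ ≤ _ := mul_le_mul_of_nonneg_right hk2' h5
      linarith
    have h6 : (22 * (k : ℝ) + 1) * 2 ^ k * (3 / 32 * lam ^ 2) ≤ Real.log Y := by
      have h7 : (22 * (k : ℝ) + 1) * 2 ^ k * (3 / 32 * lam ^ 2) =
          (22 * (k : ℝ) + 1) * (3 / 32) * (2 ^ k * lam ^ 2) := by ring
      rw [h7]
      have h8 : (22 * (k : ℝ) + 1) * (3 / 32) * (2 ^ k * lam ^ 2) ≤
          (22 * (k : ℝ) + 1) * (3 / 32) * (1 / 5) :=
        mul_le_mul_of_nonneg_left hk1' (by positivity)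
      have hk0 : (0 : ℝ) ≤ k := Nat.cast_nonneg k
      have h9 : 0.69 * (k : ℝ) ≤ Real.log Y := by nlinarith
      nlinarith
    have h10 : Y ^ C = Real.exp (C * Real.log Y) := by
      rw [Real.rpow_def_of_pos hYpos, mul_comm]
    calc Y ^ C * ((L : ℝ) ^ 2 * ((1 + η)⁻¹ ^ (2 ^ k) *
          Real.exp ((22 * k + 1) * 2 ^ k * (3 / 32 * lam ^ 2))))
        ≤ Y ^ C * ((2 * Y ^ C) ^ 2 * (Real.exp (-((3 * C + 2) * Real.log Y)) *
          Real.exp (Real.log Y))) := by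
          gcongr
      _ = 4 * Real.exp (-Real.log Y) := by
          rw [h10, mul_pow, ← Real.exp_nat_mul, ← Real.exp_add]
          have e : Real.exp (C * Real.log Y) * (2 ^ 2 * Real.exp (((2 : ℕ) : ℝ) * (C * Real.log Y)) *
              Real.exp (-((3 * C + 2) * Real.log Y) + Real.log Y)) =
              4 * (Real.exp (C * Real.log Y) * Real.exp (((2 : ℕ) : ℝ) * (C * Real.log Y)) *
              Real.exp (-((3 * C + 2) * Real.log Y) + Real.log Y)) := by ring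
          rw [e, ← Real.exp_add, ← Real.exp_add]
          congr 2
          push_cast
          ring
      _ = 4 / Y := by
          rw [Real.exp_neg, Real.exp_log hYpos]
          rfl
      _ ≤ 1 := by
          rw [div_le_one hYpos]
          linarith
  · have h1 : 4 * η ≤ 4 * (K' * lam ^ 2 * (4 * ℓ)) := by
      have hK0 : 0 ≤ K' * lam ^ 2 := by positivity
      linarith [mul_le_mul_of_nonneg_left hlogY4 hK0]
    have h2 : lam ^ 2 ≤ 2 * lam ^ 2 * ℓ := by
      have h3 : 0 < lam ^ 2 := by positivity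
      nlinarith
    calc 4 * η + lam ^ 2 ≤ 4 * (K' * lam ^ 2 * (4 * ℓ)) + 2 * lam ^ 2 * ℓ := by linarith
      _ = _ := by rw [hK']; ring
  · rw [Real.sqrt_sq hl0.le]
    refine div_le_div_of_nonneg_left hl0.le (by positivity) ?_
    calc C * Real.log Y ≤ C * (4 * ℓ) := mul_le_mul_of_nonneg_left hlogY4 (by linarith)
      _ ≤ (320 * (3 * C + 2) + 2) * ℓ := by
          have : 0 ≤ ℓ := by linarith
          nlinarith

/-- localization below the band, laws on `[-1, 1]` of mean zero and bounded density -/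
theorem below2 (D : ℝ) (hD : 0 < D) : ∃ K : ℝ, 1 ≤ K ∧ ∀ (μ : Measure ℝ) [IsProbabilityMeasure μ],
    μ (Set.Icc (-1) 1)ᶜ = 0 → μ ≤ ENNReal.ofReal D • (volume : Measure ℝ) → ∫ t, t ∂μ = 0 →
    ∀ lam : ℝ, 0 < lam → lam ≤ K⁻¹ →
    ∀ᵐ ω ∂(Measure.infinitePi fun _ : Zd 2 => μ),
      H4R2.LO.Main.Dec 2 (-1) (fun x => lam * ω x)
        (Set.Iic (-(K * lam ^ 2 * Real.log (1 / lam)) - 2 * ((2 : ℕ) : ℝ)))
        (lam / (K * Real.log (1 / lam))) := by
  obtain ⟨C, hC, H⟩ := H4R2.LO.Main.below 2 (by norm_num) (D + 4 * D ^ 2) (by positivity)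
  refine ⟨320 * (3 * C + 2) + 2, by linarith, ?_⟩
  intro μ _ hμ hμD hm lam hl0 hl
  have hl1 : lam ≤ 1 / (80 * (3 * C + 2)) := by
    refine hl.trans ?_
    rw [one_div]
    refine inv_anti₀ (by linarith) ?_
    linarith
  have hl2 : lam ≤ 1 := by
    refine hl1.trans ?_
    rw [div_le_one (by linarith)]
    linarith
  obtain ⟨k, L, η, hη, hL, hkL, hkl, h1, h2, h3, h4⟩ := numer C lam hC hl0 hl1
  have : NeZero L := ⟨hL.ne'⟩
  have hT := torusBound L k hkL μ hμ hm hη hl0.le hl2 hkl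
  have h5 := H μ (H4R2.LO.Lw.reg_bdd μ D hD hμ hμD) lam hl0 hl2 L (-4 * η) _ (by positivity) hT
    (lam ^ 2) (by positivity) (pow_le_one₀ hl0.le hl2) h1 h2
  filter_upwards [h5] with ω hω
  refine H4R2.LO.Main.dec_mono _ _ _ _ _ _ hω ?_ h4
  intro E hE
  rw [Set.mem_Iic] at hE ⊢
  have h6 : -((320 * (3 * C + 2) + 2) * lam ^ 2 * Real.log (1 / lam)) - 2 * ((2 : ℕ) : ℝ) ≤
      -4 * η - 2 * ((2 : ℕ) : ℝ) - lam ^ 2 := by
    have h7 : -4 * η - 2 * ((2 : ℕ) : ℝ) - lam ^ 2 =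
        -(4 * η + lam ^ 2) - 2 * ((2 : ℕ) : ℝ) := by ring
    rw [h7]
    exact sub_le_sub_right (neg_le_neg h3) _
  exact hE.trans h6

end Pool.Agent.Q235.D2
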