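import Pool.Agent.Q235.D2.Walk

/-!
# Transition probabilities of the walk and their discounted sums
-/

set_option autoImplicit false

open scoped BigOperators

namespace Pool.Agent.Q235.D2

variable {A : Type*} [AddCommGroup A] [DecidableEq A]

/-- the transition probabilities -/
noncomputable def pk (s : Fin 4 → A) : ℕ → A → A → ℝ
  | 0, x, y => if x = y then 1 else 0
  | n + 1, x, y => (1 / 4) * ∑ i, pk s n (x + s i) y

theorem pk_zero (s : Fin 4 → A) (x y : A) : pk s 0 x y = if x = y then 1 else 0 := rfl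

theorem pk_succ (s : Fin 4 → A) (n : ℕ) (x y : A) :
    pk s (n + 1) x y = (1 / 4) * ∑ i, pk s n (x + s i) y := rfl

theorem pk_nonneg (s : Fin 4 → A) : ∀ (n : ℕ) (x y : A), 0 ≤ pk s n x y
  | 0, x, y => by rw [pk_zero]; split_ifs <;> norm_num
  | n + 1, x, y => by
    rw [pk_succ]
    have := Finset.sum_nonneg fun i (_ : i ∈ Finset.univ) => pk_nonneg s n (x + s i) y
    positivity

variable [Fintype A]

theorem pk_ck (s : Fin 4 → A) (n : ℕ) : ∀ (m : ℕ) (x z : A),
    ∑ y, pk s m x y * pk s n y z = pk s (m + n) x z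
  | 0, x, z => by
    rw [zero_add]
    simp [pk_zero]
  | m + 1, x, z => by
    have e : m + 1 + n = (m + n) + 1 := by ring
    rw [e, pk_succ]
    simp only [pk_succ]
    have h1 : ∀ y, (1 / 4 : ℝ) * (∑ i, pk s m (x + s i) y) * pk s n y z =
        (1 / 4) * ∑ i, pk s m (x + s i) y * pk s n y z := fun y => by
      rw [mul_assoc, Finset.sum_mul]
    rw [Finset.sum_congr rfl fun y _ => h1 y, ← Finset.mul_sum, Finset.sum_comm]
    congr 1
    exact Finset.sum_congr rfl fun i _ => pk_ck s n m (x + s i) z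

omit [Fintype A] in
theorem pk_one_symm (s : Fin 4 → A) (nu : Fin 4 ≃ Fin 4) (hs : ∀ i, s (nu i) = -s i) (x y : A) :
    pk s 1 x y = pk s 1 y x := by
  rw [pk_succ, pk_succ]
  congr 1
  refine Fintype.sum_equiv nu _ _ fun i => ?_
  rw [pk_zero, pk_zero, hs i]
  have : x + s i = y ↔ y + -s i = x := by
    constructor
    · rintro rfl
      abel
    · rintro rfl
      abel
  simp only [this]

theorem pk_symm (s : Fin 4 → A) (nu : Fin 4 ≃ Fin 4) (hs : ∀ i, s (nu i) = -s i) :
    ∀ (n : ℕ) (x y : A), pk s n x y = pk s n y x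
  | 0, x, y => by
    rw [pk_zero, pk_zero]
    simp only [eq_comm]
  | n + 1, x, y => by
    rw [← pk_ck s 1 n y x, add_comm n 1, ← pk_ck s n 1 x y]
    refine Finset.sum_congr rfl fun z _ => ?_
    rw [pk_one_symm s nu hs x z, pk_symm s nu hs n z y, mul_comm]

/-- discounted Green function up to time `n` -/
noncomputable def gk (s : Fin 4 → A) (q : ℝ) (n : ℕ) (x y : A) : ℝ :=
  ∑ t ∈ Finset.range (n + 1), q ^ t * pk s t x y

omit [Fintype A] in
theorem gk_zero (s : Fin 4 → A) (q : ℝ) (x y : A) : gk s q 0 x y = if x = y then 1 else 0 := by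
  unfold gk
  simp [pk_zero]

omit [Fintype A] in
theorem gk_succ (s : Fin 4 → A) (q : ℝ) (n : ℕ) (x y : A) :
    gk s q (n + 1) x y =
      (if x = y then 1 else 0) + q * ((1 / 4) * ∑ i, gk s q n (x + s i) y) := by
  unfold gk
  rw [Finset.sum_range_succ']
  rw [pow_zero, one_mul, pk_zero, add_comm]
  congr 1
  rw [Finset.sum_comm, Finset.mul_sum, Finset.mul_sum]
  refine Finset.sum_congr rfl fun t _ => ?_
  rw [pk_succ, pow_succ, ← Finset.mul_sum]
  ring

omit [Fintype A] in
theorem gk_nonneg (s : Fin 4 → A) {q : ℝ} (hq : 0 ≤ q) (n : ℕ) (x y : A) : 0 ≤ gk s q n x y :=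
  Finset.sum_nonneg fun t _ => mul_nonneg (pow_nonneg hq t) (pk_nonneg s t x y)

omit [Fintype A] in
theorem gk_mono (s : Fin 4 → A) {q : ℝ} (hq : 0 ≤ q) (n : ℕ) (x y : A) :
    gk s q n x y ≤ gk s q (n + 1) x y := by
  unfold gk
  rw [Finset.sum_range_succ _ (n + 1)]
  have := mul_nonneg (pow_nonneg hq (n + 1)) (pk_nonneg s (n + 1) x y)
  linarith

theorem sum_anti (n : ℕ) (h : ℕ → ℝ) (h0 : ∀ t, 0 ≤ h t) :
    ∑ a ∈ Finset.range (n + 1), ∑ b ∈ Finset.range (n + 1), h (a + b) ≤
      ∑ t ∈ Finset.range (2 * n + 1), ((t : ℝ) + 1) * h t := by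
  rw [← Finset.sum_product' (f := fun a b => h (a + b))]
  rw [← Finset.sum_fiberwise_of_maps_to (t := Finset.range (2 * n + 1))
    (g := fun p : ℕ × ℕ => p.1 + p.2) (fun p hp => by
      rw [Finset.mem_product, Finset.mem_range, Finset.mem_range] at hp
      rw [Finset.mem_range]
      omega)]
  refine Finset.sum_le_sum fun t _ => ?_
  have h1 : ∑ p ∈ (Finset.range (n + 1) ×ˢ Finset.range (n + 1)).filter
      (fun p => p.1 + p.2 = t), h (p.1 + p.2) ≤ ∑ p ∈ Finset.HasAntidiagonal.antidiagonal t, h t := by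
    calc ∑ p ∈ (Finset.range (n + 1) ×ˢ Finset.range (n + 1)).filter
          (fun p => p.1 + p.2 = t), h (p.1 + p.2)
        = ∑ p ∈ (Finset.range (n + 1) ×ˢ Finset.range (n + 1)).filter
          (fun p => p.1 + p.2 = t), h t := by
          refine Finset.sum_congr rfl fun p hp => ?_
          rw [(Finset.mem_filter.1 hp).2]
      _ ≤ _ := by
          refine Finset.sum_le_sum_of_subset_of_nonneg (fun p hp => ?_) fun _ _ _ => h0 t
          rw [Finset.HasAntidiagonal.mem_antidiagonal]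
          exact (Finset.mem_filter.1 hp).2
  rw [Finset.sum_const, Finset.Nat.card_antidiagonal, nsmul_eq_mul] at h1
  push_cast at h1
  exact h1

theorem geo_le {q : ℝ} (hq : 0 ≤ q) (hq1 : q < 1) (n : ℕ) :
    ∑ t ∈ Finset.range n, q ^ t ≤ 1 / (1 - q) := by
  rw [le_div_iff₀ (by linarith), geom_sum_mul_neg]
  have := pow_nonneg hq n
  linarith

/-- the square sum of the discounted Green function -/
theorem gk_sq (s : Fin 4 → A) (nu : Fin 4 ≃ Fin 4) (hs : ∀ i, s (nu i) = -s i) {q : ℝ}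
    (hq : 0 ≤ q) (hq1 : q < 1) (n : ℕ)
    (hp : ∀ t, t ≤ 2 * n → ∀ x, pk s t x x ≤ 1 / ((t : ℝ) + 1)) (x : A) :
    ∑ y, gk s q n x y ^ 2 ≤ 1 / (1 - q) := by
  have h1 : ∑ y, gk s q n x y ^ 2 = ∑ a ∈ Finset.range (n + 1), ∑ b ∈ Finset.range (n + 1),
      q ^ (a + b) * pk s (a + b) x x := by
    have h2 : ∀ y, gk s q n x y ^ 2 = ∑ a ∈ Finset.range (n + 1), ∑ b ∈ Finset.range (n + 1),
        q ^ (a + b) * (pk s a x y * pk s b y x) := by
      intro y
      unfold gk
      rw [sq, Finset.sum_mul_sum]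
      refine Finset.sum_congr rfl fun a _ => Finset.sum_congr rfl fun b _ => ?_
      rw [pk_symm s nu hs b y x, pow_add]
      ring
    rw [Finset.sum_congr rfl fun y _ => h2 y, Finset.sum_comm]
    refine Finset.sum_congr rfl fun a _ => ?_
    rw [Finset.sum_comm]
    refine Finset.sum_congr rfl fun b _ => ?_
    rw [← Finset.mul_sum, pk_ck]
  rw [h1]
  calc ∑ a ∈ Finset.range (n + 1), ∑ b ∈ Finset.range (n + 1), q ^ (a + b) * pk s (a + b) x x
      ≤ ∑ a ∈ Finset.range (n + 1), ∑ b ∈ Finset.range (n + 1),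
          (fun t : ℕ => q ^ t * (1 / ((t : ℝ) + 1))) (a + b) := by
        refine Finset.sum_le_sum fun a ha => Finset.sum_le_sum fun b hb => ?_
        rw [Finset.mem_range] at ha hb
        exact mul_le_mul_of_nonneg_left (hp (a + b) (by omega) x) (pow_nonneg hq _)
    _ ≤ ∑ t ∈ Finset.range (2 * n + 1), ((t : ℝ) + 1) * (q ^ t * (1 / ((t : ℝ) + 1))) :=
        sum_anti n (fun t : ℕ => q ^ t * (1 / ((t : ℝ) + 1))) fun t => by positivity
    _ = ∑ t ∈ Finset.range (2 * n + 1), q ^ t := by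
        refine Finset.sum_congr rfl fun t _ => ?_
        have : (t : ℝ) + 1 ≠ 0 := by positivity
        field_simp
    _ ≤ _ := geo_le hq hq1 _

end Pool.Agent.Q235.D2
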