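import Pool.Agent.Q235.D2.Heat

/-!
# Moments of the number of intersections of two independent walks
-/

set_option autoImplicit false

open scoped BigOperators

namespace Pool.Agent.Q235.D2

theorem prod_split {ι : Type*} [DecidableEq ι] (c t : ι → ℝ) (hc : ∀ i, 0 ≤ c i)
    (ht : ∀ i, 0 ≤ t i) (s : Finset ι) :
    ∏ i ∈ s, (c i + t i) ≤ ∏ i ∈ s, c i + ∑ a ∈ s, t a * ∏ i ∈ s.erase a, (c i + t i) := by
  induction s using Finset.induction_on with
  | empty => simp
  | insert b s hb ih =>
    rw [Finset.prod_insert hb, Finset.prod_insert hb, Finset.sum_insert hb,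
      Finset.erase_insert hb]
    have h1 : ∀ a ∈ s, t a * ∏ i ∈ (insert b s).erase a, (c i + t i) =
        (c b + t b) * (t a * ∏ i ∈ s.erase a, (c i + t i)) := by
      intro a ha
      have hab : a ≠ b := fun h => hb (h ▸ ha)
      rw [Finset.erase_insert_of_ne hab.symm, Finset.prod_insert (fun h =>
        hb (Finset.mem_of_mem_erase h))]
      ring
    rw [Finset.sum_congr rfl h1, ← Finset.mul_sum]
    have h2 : 0 ≤ ∑ a ∈ s, t a * ∏ i ∈ s.erase a, (c i + t i) :=
      Finset.sum_nonneg fun a _ => mul_nonneg (ht a) (Finset.prod_nonneg fun i _ =>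
        add_nonneg (hc i) (ht i))
    have h3 := mul_le_mul_of_nonneg_left ih (hc b)
    have h4 := mul_nonneg (ht b) h2
    linarith

theorem prod_succAbove {m : ℕ} (f : Fin (m + 1) → ℝ) (a : Fin (m + 1)) :
    ∏ i ∈ Finset.univ.erase a, f i = ∏ j, f (a.succAbove j) := by
  have h : Finset.univ.erase a = Finset.univ.image a.succAbove := by
    rw [Fin.image_succAbove_univ]
    ext i
    simp
  rw [h, Finset.prod_image fun i _ j _ hij => Fin.succAbove_right_injective hij]

variable {A : Type*} [AddCommGroup A] [DecidableEq A]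

/-- one step of the recursion for `So` -/
noncomputable def SoStep (b : A) (f : (m : ℕ) → (Fin m → A) → ℝ) : (m : ℕ) → (Fin m → A) → ℝ
  | 0, _ => 1
  | m + 1, y => f (m + 1) y +
      ∑ a : Fin (m + 1), if y a = b then SoStep b f m (fun j => y (a.succAbove j)) else 0

/-- the sum over all orders of the number of ordered occurrences of the `y a` in the list -/
noncomputable def So : List A → (m : ℕ) → (Fin m → A) → ℝ
  | [] => fun m _ => if m = 0 then 1 else 0
  | b :: l => SoStep b (So l)

theorem So_nil (m : ℕ) (y : Fin m → A) : So ([] : List A) m y = if m = 0 then 1 else 0 := rfl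

theorem So_cons_zero (b : A) (l : List A) (y : Fin 0 → A) : So (b :: l) 0 y = 1 := rfl

theorem So_cons_succ (b : A) (l : List A) (m : ℕ) (y : Fin (m + 1) → A) :
    So (b :: l) (m + 1) y = So l (m + 1) y +
      ∑ a : Fin (m + 1), if y a = b then So (b :: l) m (fun j => y (a.succAbove j)) else 0 := rfl

theorem count_le_So : ∀ (l : List A) (m : ℕ) (y : Fin m → A),
    ∏ a, (l.count (y a) : ℝ) ≤ So l m y
  | [], 0, y => by simp [So_nil]
  | [], m + 1, y => by
    rw [So_nil]
    simp
  | b :: l, 0, y => by rw [So_cons_zero]; simp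
  | b :: l, m + 1, y => by
    rw [So_cons_succ]
    have h1 : ∀ a, (((b :: l).count (y a) : ℕ) : ℝ) =
        (l.count (y a) : ℝ) + (if y a = b then (1 : ℝ) else 0) := by
      intro a
      rw [List.count_cons]
      push_cast
      congr 1
      by_cases h : y a = b
      · simp [h]
      · simp [h, Ne.symm h]
    have h2 := prod_split (fun a => (l.count (y a) : ℝ)) (fun a => if y a = b then (1 : ℝ) else 0)
      (fun a => Nat.cast_nonneg _) (fun a => by split_ifs <;> norm_num) Finset.univ
    have h3 : ∏ a, (((b :: l).count (y a) : ℕ) : ℝ) = ∏ i, ((l.count (y i) : ℝ) +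
        (if y i = b then (1 : ℝ) else 0)) := Finset.prod_congr rfl fun a _ => h1 a
    rw [h3]
    refine h2.trans (add_le_add (count_le_So l (m + 1) y) (Finset.sum_le_sum fun a _ => ?_))
    rw [prod_succAbove]
    have h4 : ∏ j, ((l.count (y (a.succAbove j)) : ℝ) +
        (if y (a.succAbove j) = b then (1 : ℝ) else 0)) =
        ∏ j, (((b :: l).count (y (a.succAbove j)) : ℕ) : ℝ) :=
      Finset.prod_congr rfl fun j _ => (h1 _).symm
    rw [h4]
    have h5 := count_le_So (b :: l) m (fun j => y (a.succAbove j))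
    split_ifs
    · rw [one_mul]
      exact h5
    · rw [zero_mul]
termination_by l m => (l.length, m)

/-- sum over all orders of products of Green functions along a chain -/
noncomputable def Bc (s : Fin 4 → A) (q : ℝ) (n : ℕ) : (m : ℕ) → A → (Fin m → A) → ℝ
  | 0, _, _ => 1
  | m + 1, x, y => ∑ a : Fin (m + 1), gk s q n x (y a) *
      Bc s q n m (y a) (fun j => y (a.succAbove j))

theorem Bc_zero (s : Fin 4 → A) (q : ℝ) (n : ℕ) (x : A) (y : Fin 0 → A) :
    Bc s q n 0 x y = 1 := rfl

theorem Bc_succ (s : Fin 4 → A) (q : ℝ) (n m : ℕ) (x : A) (y : Fin (m + 1) → A) :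
    Bc s q n (m + 1) x y = ∑ a : Fin (m + 1), gk s q n x (y a) *
      Bc s q n m (y a) (fun j => y (a.succAbove j)) := rfl

theorem Bc_nonneg (s : Fin 4 → A) {q : ℝ} (hq : 0 ≤ q) (n : ℕ) : ∀ (m : ℕ) (x : A)
    (y : Fin m → A), 0 ≤ Bc s q n m x y
  | 0, x, y => by rw [Bc_zero]; norm_num
  | m + 1, x, y => by
    rw [Bc_succ]
    exact Finset.sum_nonneg fun a _ => mul_nonneg (gk_nonneg s hq n _ _) (Bc_nonneg s hq n m _ _)

theorem Bc_mono (s : Fin 4 → A) {q : ℝ} (hq : 0 ≤ q) (n : ℕ) : ∀ (m : ℕ) (x : A)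
    (y : Fin m → A), Bc s q n m x y ≤ Bc s q (n + 1) m x y
  | 0, x, y => le_rfl
  | m + 1, x, y => by
    rw [Bc_succ, Bc_succ]
    exact Finset.sum_le_sum fun a _ => mul_le_mul (gk_mono s hq n _ _) (Bc_mono s hq n m _ _)
      (Bc_nonneg s hq n m _ _) (gk_nonneg s hq _ _ _)

theorem U_zero (s : Fin 4 → A) (q : ℝ) (x : A) : ∀ (m : ℕ) (y : Fin m → A),
    So [x] m y ≤ Bc s q 0 m x y
  | 0, y => le_rfl
  | m + 1, y => by
    rw [So_cons_succ, Bc_succ, So_nil, if_neg (Nat.succ_ne_zero m), zero_add]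
    refine Finset.sum_le_sum fun a _ => ?_
    rw [gk_zero]
    by_cases h : y a = x
    · rw [if_pos h, if_pos h.symm, one_mul, h]
      exact U_zero s q x m _
    · rw [if_neg h, if_neg (Ne.symm h), zero_mul]

theorem U_bound (s : Fin 4 → A) {q : ℝ} (hq : 0 ≤ q) (hq1 : q ≤ 1) : ∀ (n m : ℕ) (x : A)
    (y : Fin m → A), q ^ n * Ex s n x (fun l => So l m y) ≤ Bc s q n m x y
  | 0, m, x, y => by
    rw [pow_zero, one_mul, Ex_zero]
    exact U_zero s q x m y
  | n + 1, 0, x, y => by
    have h1 : Ex s (n + 1) x (fun l => So l 0 y) = 1 := by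
      rw [← Ex_const s 1 (n + 1) x]
      exact Ex_congr s _ _ _ _ fun l _ => rfl
    rw [h1, mul_one, Bc_zero]
    exact pow_le_one₀ hq hq1
  | n + 1, m + 1, x, y => by
    have h1 : Ex s (n + 1) x (fun l => So l (m + 1) y) =
        (1 / 4) * ∑ i, Ex s n (x + s i) (fun l => So l (m + 1) y) +
          ∑ a : Fin (m + 1), (if y a = x then
            Ex s (n + 1) x (fun l => So l m (fun j => y (a.succAbove j))) else 0) := by
      rw [Ex_succ]
      have h2 : ∀ i, Ex s n (x + s i) (fun l => So (x :: l) (m + 1) y) =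
          Ex s n (x + s i) (fun l => So l (m + 1) y) + ∑ a : Fin (m + 1), (if y a = x then
            Ex s n (x + s i) (fun l => So (x :: l) m (fun j => y (a.succAbove j))) else 0) := by
        intro i
        simp only [So_cons_succ]
        rw [Ex_add, Ex_sum]
        congr 1
        refine Finset.sum_congr rfl fun a _ => ?_
        split_ifs
        · rfl
        · exact Ex_const s 0 n _
      rw [Finset.sum_congr rfl fun i _ => h2 i, Finset.sum_add_distrib, mul_add]
      congr 1
      rw [Finset.sum_comm, Finset.mul_sum]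
      refine Finset.sum_congr rfl fun a _ => ?_
      split_ifs
      · rw [Ex_succ]
      · simp
    rw [h1, mul_add, Bc_succ]
    simp only [gk_succ]
    have h3 : ∀ a : Fin (m + 1), ((if x = y a then (1 : ℝ) else 0) +
        q * ((1 / 4) * ∑ i, gk s q n (x + s i) (y a))) *
          Bc s q (n + 1) m (y a) (fun j => y (a.succAbove j)) =
        (if x = y a then (1 : ℝ) else 0) * Bc s q (n + 1) m (y a) (fun j => y (a.succAbove j)) +
        q * ((1 / 4) * ∑ i, gk s q n (x + s i) (y a) *
          Bc s q (n + 1) m (y a) (fun j => y (a.succAbove j))) := by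
      intro a
      rw [add_mul, ← Finset.sum_mul]
      ring
    rw [Finset.sum_congr rfl fun a _ => h3 a, Finset.sum_add_distrib, add_comm]
    refine add_le_add ?_ ?_
    · rw [Finset.mul_sum]
      refine Finset.sum_le_sum fun a _ => ?_
      by_cases h : y a = x
      · rw [if_pos h, if_pos h.symm, one_mul]
        have h4 := U_bound s hq hq1 (n + 1) m x (fun j => y (a.succAbove j))
        rwa [← h] at h4 ⊢
      · rw [if_neg h, if_neg (Ne.symm h), mul_zero, zero_mul]
    · rw [← Finset.mul_sum, ← Finset.mul_sum, Finset.sum_comm, pow_succ, mul_comm (q ^ n) q,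
        mul_assoc, mul_left_comm (q ^ n) (1 / 4) _, Finset.mul_sum]
      refine mul_le_mul_of_nonneg_left (mul_le_mul_of_nonneg_left
        (Finset.sum_le_sum fun i _ => ?_) (by norm_num)) hq
      refine (U_bound s hq hq1 n (m + 1) (x + s i) y).trans ?_
      rw [Bc_succ]
      exact Finset.sum_le_sum fun a _ => mul_le_mul_of_nonneg_left (Bc_mono s hq n m _ _)
        (gk_nonneg s hq _ _ _)
termination_by n m => (n, m)

variable [Fintype A]

theorem Bc_sq (s : Fin 4 → A) {q : ℝ} (hq : 0 ≤ q) (n : ℕ) {G : ℝ} (hG0 : 0 ≤ G)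
    (hG : ∀ x, ∑ y, gk s q n x y ^ 2 ≤ G) : ∀ (m : ℕ) (x : A),
    ∑ y : Fin m → A, Bc s q n m x y ^ 2 ≤ (m.factorial : ℝ) ^ 2 * G ^ m
  | 0, x => by
    simp [Bc_zero]
  | m + 1, x => by
    have h1 : ∀ y : Fin (m + 1) → A, Bc s q n (m + 1) x y ^ 2 ≤
        ((m : ℝ) + 1) * ∑ a : Fin (m + 1), (gk s q n x (y a) *
          Bc s q n m (y a) (fun j => y (a.succAbove j))) ^ 2 := by
      intro y
      rw [Bc_succ]
      have h2 := sq_sum_le_card_mul_sum_sq (s := (Finset.univ : Finset (Fin (m + 1))))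
        (f := fun a => gk s q n x (y a) * Bc s q n m (y a) (fun j => y (a.succAbove j)))
      rw [Finset.card_univ, Fintype.card_fin] at h2
      push_cast at h2
      exact h2
    refine (Finset.sum_le_sum fun y _ => h1 y).trans ?_
    rw [← Finset.mul_sum, Finset.sum_comm]
    have h3 : ∀ a : Fin (m + 1), ∑ y : Fin (m + 1) → A, (gk s q n x (y a) *
        Bc s q n m (y a) (fun j => y (a.succAbove j))) ^ 2 ≤
        G * ((m.factorial : ℝ) ^ 2 * G ^ m) := by
      intro a
      have h4 : ∑ y : Fin (m + 1) → A, (gk s q n x (y a) *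
          Bc s q n m (y a) (fun j => y (a.succAbove j))) ^ 2 =
          ∑ p : A × (Fin m → A), (gk s q n x p.1 * Bc s q n m p.1 p.2) ^ 2 := by
        refine (Fintype.sum_equiv (Fin.insertNthEquiv (fun _ => A) a) _ _ fun p => ?_).symm
        simp
      rw [h4, Fintype.sum_prod_type]
      calc ∑ t, ∑ y, (gk s q n x t * Bc s q n m t y) ^ 2
          = ∑ t, gk s q n x t ^ 2 * ∑ y, Bc s q n m t y ^ 2 := by
            refine Finset.sum_congr rfl fun t _ => ?_
            rw [Finset.mul_sum]
            exact Finset.sum_congr rfl fun y _ => mul_pow _ _ _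
        _ ≤ ∑ t, gk s q n x t ^ 2 * ((m.factorial : ℝ) ^ 2 * G ^ m) :=
            Finset.sum_le_sum fun t _ => mul_le_mul_of_nonneg_left
              (Bc_sq s hq n hG0 hG m t) (sq_nonneg _)
        _ ≤ _ := by
            rw [← Finset.sum_mul]
            exact mul_le_mul_of_nonneg_right (hG x) (by positivity)
    calc ((m : ℝ) + 1) * ∑ a : Fin (m + 1), ∑ y : Fin (m + 1) → A, (gk s q n x (y a) *
          Bc s q n m (y a) (fun j => y (a.succAbove j))) ^ 2
        ≤ ((m : ℝ) + 1) * ∑ a : Fin (m + 1), G * ((m.factorial : ℝ) ^ 2 * G ^ m) :=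
          mul_le_mul_of_nonneg_left (Finset.sum_le_sum fun a _ => h3 a) (by positivity)
      _ = ((m + 1).factorial : ℝ) ^ 2 * G ^ (m + 1) := by
          rw [Finset.sum_const, Finset.card_univ, Fintype.card_fin, nsmul_eq_mul,
            Nat.factorial_succ]
          push_cast
          ring

/-- the number of intersections -/
noncomputable def Jn (l l' : List A) : ℝ := ∑ y, (l.count y : ℝ) * (l'.count y : ℝ)

theorem Jn_nonneg (l l' : List A) : 0 ≤ Jn l l' :=
  Finset.sum_nonneg fun y _ => by positivity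

/-- moments of the number of intersections of two independent walks -/
theorem moment (s : Fin 4 → A) {q : ℝ} (hq : 0 ≤ q) (hq1 : q ≤ 1) (n : ℕ) {G : ℝ} (hG0 : 0 ≤ G)
    (hG : ∀ x, ∑ y, gk s q n x y ^ 2 ≤ G) (m : ℕ) (x x' : A) :
    q ^ n * q ^ n * Ex s n x (fun l => Ex s n x' (fun l' => Jn l l' ^ m)) ≤
      (m.factorial : ℝ) ^ 2 * G ^ m := by
  have h1 : ∀ l l' : List A, Jn l l' ^ m ≤ ∑ y : Fin m → A, So l m y * So l' m y := by
    intro l l'
    unfold Jn
    rw [Fintype.sum_pow]
    refine Finset.sum_le_sum fun y _ => ?_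
    rw [Finset.prod_mul_distrib]
    exact mul_le_mul (count_le_So l m y) (count_le_So l' m y)
      (Finset.prod_nonneg fun _ _ => Nat.cast_nonneg _)
      ((Finset.prod_nonneg fun _ _ => Nat.cast_nonneg _).trans (count_le_So l m y))
  have h2 : Ex s n x (fun l => Ex s n x' (fun l' => Jn l l' ^ m)) ≤
      ∑ y : Fin m → A, Ex s n x (fun l => So l m y) * Ex s n x' (fun l' => So l' m y) := by
    calc Ex s n x (fun l => Ex s n x' (fun l' => Jn l l' ^ m))
        ≤ Ex s n x (fun l => Ex s n x' (fun l' => ∑ y : Fin m → A, So l m y * So l' m y)) :=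
          Ex_mono s n x _ _ fun l _ => Ex_mono s n x' _ _ fun l' _ => h1 _ _
      _ = Ex s n x (fun l => ∑ y : Fin m → A, Ex s n x' (fun l' => So l' m y) * So l m y) := by
          congr 1
          funext l
          rw [Ex_sum]
          refine Finset.sum_congr rfl fun y _ => ?_
          rw [Ex_smul, mul_comm]
      _ = _ := by
          rw [Ex_sum]
          refine Finset.sum_congr rfl fun y _ => ?_
          rw [Ex_smul, mul_comm]
  have h3 : ∀ y : Fin m → A, q ^ n * q ^ n * (Ex s n x (fun l => So l m y) *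
      Ex s n x' (fun l' => So l' m y)) ≤ (Bc s q n m x y ^ 2 + Bc s q n m x' y ^ 2) / 2 := by
    intro y
    have hn : ∀ z : A, 0 ≤ q ^ n * Ex s n z (fun l => So l m y) := fun z =>
      mul_nonneg (pow_nonneg hq n) (Ex_nonneg s n z _ fun l _ =>
        (Finset.prod_nonneg fun _ _ => Nat.cast_nonneg _).trans (count_le_So _ m y))
    have h4 := U_bound s hq hq1 n m x y
    have h5 := U_bound s hq hq1 n m x' y
    have h6 : q ^ n * q ^ n * (Ex s n x (fun l => So l m y) * Ex s n x' (fun l' => So l' m y)) =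
        (q ^ n * Ex s n x (fun l => So l m y)) * (q ^ n * Ex s n x' (fun l' => So l' m y)) := by
      ring
    rw [h6]
    have h7 := mul_le_mul h4 h5 (hn x') (Bc_nonneg s hq n m x y)
    nlinarith [sq_nonneg (Bc s q n m x y - Bc s q n m x' y)]
  calc q ^ n * q ^ n * Ex s n x (fun l => Ex s n x' (fun l' => Jn l l' ^ m))
      ≤ q ^ n * q ^ n * ∑ y : Fin m → A, Ex s n x (fun l => So l m y) *
          Ex s n x' (fun l' => So l' m y) := mul_le_mul_of_nonneg_left h2 (by positivity)
    _ ≤ ∑ y : Fin m → A, (Bc s q n m x y ^ 2 + Bc s q n m x' y ^ 2) / 2 := by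
        rw [Finset.mul_sum]
        exact Finset.sum_le_sum fun y _ => h3 y
    _ = (∑ y : Fin m → A, Bc s q n m x y ^ 2 + ∑ y : Fin m → A, Bc s q n m x' y ^ 2) / 2 := by
        rw [← Finset.sum_div, Finset.sum_add_distrib]
    _ ≤ _ := by
        have h8 := Bc_sq s hq n hG0 hG m x
        have h9 := Bc_sq s hq n hG0 hG m x'
        linarith

end Pool.Agent.Q235.D2
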