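import Pool.Agent.Q235.D2.Heat

/-!
# Return probabilities of simple random walk on the two-dimensional torus
-/

set_option autoImplicit false

open scoped BigOperators

namespace Pool.Agent.Q235.D2

/-- the four steps of simple random walk on the torus -/
def st (L : ℕ) : Fin 4 → (Fin 2 → ZMod L) :=
  ![Pi.single 0 1, -Pi.single 0 1, Pi.single 1 1, -Pi.single 1 1]

/-- the involution exchanging opposite steps -/
def nu4 : Fin 4 ≃ Fin 4 where
  toFun := ![1, 0, 3, 2]
  invFun := ![1, 0, 3, 2]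
  left_inv := by decide
  right_inv := by decide

theorem st_nu (L : ℕ) (i : Fin 4) : st L (nu4 i) = -st L i := by
  fin_cases i <;> simp [st, nu4]

/-- the one-dimensional walk (counting paths) -/
noncomputable def bb (L : ℕ) (t : ℕ) (a : ZMod L) : ℝ :=
  ∑ j ∈ Finset.range (t + 1), (t.choose j : ℝ) *
    (if a = 2 * (j : ZMod L) - (t : ZMod L) then 1 else 0)

theorem bb_nonneg (L t : ℕ) (a : ZMod L) : 0 ≤ bb L t a := by
  unfold bb
  refine Finset.sum_nonneg fun j _ => mul_nonneg (Nat.cast_nonneg _) ?_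
  split_ifs <;> norm_num

theorem bb_succ (L t : ℕ) (a : ZMod L) : bb L (t + 1) a = bb L t (a - 1) + bb L t (a + 1) := by
  unfold bb
  rw [Finset.sum_range_succ']
  have h1 : ∀ j ∈ Finset.range (t + 1), ((t + 1).choose (j + 1) : ℝ) *
      (if a = 2 * ((j + 1 : ℕ) : ZMod L) - ((t + 1 : ℕ) : ZMod L) then 1 else 0) =
      (t.choose j : ℝ) * (if a - 1 = 2 * (j : ZMod L) - (t : ZMod L) then 1 else 0) +
      (t.choose (j + 1) : ℝ) *
        (if a + 1 = 2 * ((j + 1 : ℕ) : ZMod L) - (t : ZMod L) then 1 else 0) := by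
    intro j _
    rw [Nat.choose_succ_succ]
    have e1 : (a - 1 = 2 * (j : ZMod L) - (t : ZMod L)) ↔
        (a = 2 * ((j + 1 : ℕ) : ZMod L) - ((t + 1 : ℕ) : ZMod L)) := by
      push_cast
      constructor
      · intro h
        linear_combination h
      · intro h
        linear_combination h
    have e2 : (a + 1 = 2 * ((j + 1 : ℕ) : ZMod L) - (t : ZMod L)) ↔
        (a = 2 * ((j + 1 : ℕ) : ZMod L) - ((t + 1 : ℕ) : ZMod L)) := by
      push_cast
      constructor
      · intro h
        linear_combination h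
      · intro h
        linear_combination h
    simp only [e1, e2]
    push_cast
    ring
  rw [Finset.sum_congr rfl h1, Finset.sum_add_distrib, add_assoc]
  congr 1
  set g : ℕ → ℝ := fun j => (t.choose j : ℝ) *
    (if a + 1 = 2 * (j : ZMod L) - (t : ZMod L) then 1 else 0) with hg
  have e4 : (a + 1 = 2 * ((0 : ℕ) : ZMod L) - (t : ZMod L)) ↔
      (a = 2 * ((0 : ℕ) : ZMod L) - ((t + 1 : ℕ) : ZMod L)) := by
    push_cast
    constructor
    · intro h
      linear_combination h
    · intro h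
      linear_combination h
  have e5 : ((t + 1).choose 0 : ℝ) *
      (if a = 2 * ((0 : ℕ) : ZMod L) - ((t + 1 : ℕ) : ZMod L) then 1 else 0) = g 0 := by
    rw [hg]
    simp only [e4, Nat.choose_zero_right]
  have e6 : g (t + 1) = 0 := by
    rw [hg]
    simp
  have h2 := Finset.sum_range_succ' g (t + 1)
  have h3 := Finset.sum_range_succ g (t + 1)
  rw [e5]
  change (∑ j ∈ Finset.range (t + 1), g (j + 1)) + g 0 = ∑ j ∈ Finset.range (t + 1), g j
  rw [← h2, h3, e6, add_zero]

theorem pk_le_bb (L : ℕ) : ∀ (t : ℕ) (x y : Fin 2 → ZMod L), pk (st L) t x y ≤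
    bb L t ((y 0 + y 1) - (x 0 + x 1)) / 2 ^ t * (bb L t ((y 0 - y 1) - (x 0 - x 1)) / 2 ^ t)
  | 0, x, y => by
    rw [pk_zero]
    split_ifs with h
    · subst h
      simp [bb]
    · have h1 := bb_nonneg L 0 ((y 0 + y 1) - (x 0 + x 1))
      have h2 := bb_nonneg L 0 ((y 0 - y 1) - (x 0 - x 1))
      positivity
  | t + 1, x, y => by
    rw [pk_succ, Fin.sum_univ_four]
    have h0 := pk_le_bb L t (x + st L 0) y
    have h1 := pk_le_bb L t (x + st L 1) y
    have h2 := pk_le_bb L t (x + st L 2) y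
    have h3 := pk_le_bb L t (x + st L 3) y
    rw [bb_succ, bb_succ]
    set U := (y 0 + y 1) - (x 0 + x 1) with hU
    set W := (y 0 - y 1) - (x 0 - x 1) with hW
    have a0 : (y 0 + y 1) - ((x + st L 0) 0 + (x + st L 0) 1) = U - 1 := by
      simp [st, hU]; ring
    have b0 : (y 0 - y 1) - ((x + st L 0) 0 - (x + st L 0) 1) = W - 1 := by
      simp [st, hW]; ring
    have a1 : (y 0 + y 1) - ((x + st L 1) 0 + (x + st L 1) 1) = U + 1 := by
      simp [st, hU]; ring
    have b1 : (y 0 - y 1) - ((x + st L 1) 0 - (x + st L 1) 1) = W + 1 := by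
      simp [st, hW]; ring
    have a2 : (y 0 + y 1) - ((x + st L 2) 0 + (x + st L 2) 1) = U - 1 := by
      simp [st, hU]; ring
    have b2 : (y 0 - y 1) - ((x + st L 2) 0 - (x + st L 2) 1) = W + 1 := by
      simp [st, hW]; ring
    have a3 : (y 0 + y 1) - ((x + st L 3) 0 + (x + st L 3) 1) = U + 1 := by
      simp [st, hU]; ring
    have b3 : (y 0 - y 1) - ((x + st L 3) 0 - (x + st L 3) 1) = W - 1 := by
      simp [st, hW]; ring
    rw [a0, b0] at h0
    rw [a1, b1] at h1
    rw [a2, b2] at h2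
    rw [a3, b3] at h3
    calc 1 / 4 * (pk (st L) t (x + st L 0) y + pk (st L) t (x + st L 1) y +
          pk (st L) t (x + st L 2) y + pk (st L) t (x + st L 3) y)
        ≤ 1 / 4 * (bb L t (U - 1) / 2 ^ t * (bb L t (W - 1) / 2 ^ t) +
          bb L t (U + 1) / 2 ^ t * (bb L t (W + 1) / 2 ^ t) +
          bb L t (U - 1) / 2 ^ t * (bb L t (W + 1) / 2 ^ t) +
          bb L t (U + 1) / 2 ^ t * (bb L t (W - 1) / 2 ^ t)) := by linarith
      _ = _ := by
        rw [pow_succ]
        ring

theorem bb_le (L t : ℕ) (ht : 2 * t < L) (a : ZMod L) : bb L t a ≤ (t.choose (t / 2) : ℝ) := by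
  unfold bb
  by_cases h : ∃ j ∈ Finset.range (t + 1), a = 2 * (j : ZMod L) - (t : ZMod L)
  · obtain ⟨j, hj, hja⟩ := h
    rw [Finset.sum_eq_single_of_mem j hj]
    · rw [if_pos hja, mul_one]
      exact_mod_cast Nat.choose_le_middle j t
    · intro i hi hij
      rw [if_neg, mul_zero]
      intro hia
      apply hij
      have h1 : ((2 * i : ℕ) : ZMod L) = ((2 * j : ℕ) : ZMod L) := by
        push_cast
        linear_combination hja - hia
      rw [ZMod.natCast_eq_natCast_iff] at h1
      rw [Finset.mem_range] at hi hj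
      have h2 := Nat.ModEq.eq_of_lt_of_lt h1 (by omega) (by omega)
      omega
  · push Not at h
    rw [Finset.sum_eq_zero fun j hj => by rw [if_neg (h j hj), mul_zero]]
    exact Nat.cast_nonneg _

theorem central_sq (m : ℕ) : ((m.centralBinom : ℝ) / 4 ^ m) ^ 2 ≤ 1 / (2 * (m : ℝ) + 1) := by
  induction m with
  | zero => simp
  | succ m ih =>
    have h := Nat.succ_mul_centralBinom_succ m
    have h' : ((m : ℝ) + 1) * ((m + 1).centralBinom : ℝ) =
        2 * (2 * (m : ℝ) + 1) * (m.centralBinom : ℝ) := by exact_mod_cast h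
    have hm : (0 : ℝ) < (m : ℝ) + 1 := by positivity
    have e : ((m + 1).centralBinom : ℝ) / 4 ^ (m + 1) =
        ((2 * (m : ℝ) + 1) / (2 * ((m : ℝ) + 1))) * ((m.centralBinom : ℝ) / 4 ^ m) := by
      have : ((m + 1).centralBinom : ℝ) =
          2 * (2 * (m : ℝ) + 1) * (m.centralBinom : ℝ) / ((m : ℝ) + 1) := by
        rw [eq_div_iff hm.ne']
        linarith
      rw [this, pow_succ]
      field_simp
      ring
    rw [e, mul_pow]
    calc ((2 * (m : ℝ) + 1) / (2 * ((m : ℝ) + 1))) ^ 2 * ((m.centralBinom : ℝ) / 4 ^ m) ^ 2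
        ≤ ((2 * (m : ℝ) + 1) / (2 * ((m : ℝ) + 1))) ^ 2 * (1 / (2 * (m : ℝ) + 1)) :=
          mul_le_mul_of_nonneg_left ih (by positivity)
      _ ≤ _ := by
          push_cast
          rw [div_pow, div_mul_div_comm, div_le_div_iff₀ (by positivity) (by positivity)]
          have : (0 : ℝ) ≤ m := Nat.cast_nonneg m
          nlinarith [this, mul_nonneg this this, mul_nonneg (mul_nonneg this this) this]

theorem mid_sq (t : ℕ) : ((t.choose (t / 2) : ℝ) / 2 ^ t) ^ 2 ≤ 1 / ((t : ℝ) + 1) := by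
  rcases Nat.even_or_odd' t with ⟨m, rfl | rfl⟩
  · have h := central_sq m
    have e1 : 2 * m / 2 = m := by omega
    rw [e1]
    have e2 : ((2 * m).choose m : ℝ) = (m.centralBinom : ℝ) := by
      rw [Nat.centralBinom_eq_two_mul_choose]
    rw [e2, pow_mul]
    norm_num at h ⊢
    exact h
  · have h := central_sq (m + 1)
    have e1 : (2 * m + 1) / 2 = m := by omega
    rw [e1]
    have e2 : ((m + 1).centralBinom : ℝ) = 2 * ((2 * m + 1).choose m : ℝ) := by
      rw [Nat.centralBinom_eq_two_mul_choose]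
      have h1 : 2 * (m + 1) = (2 * m + 1) + 1 := by ring
      rw [h1, Nat.choose_succ_succ, Nat.choose_symm_half]
      push_cast
      ring
    rw [e2] at h
    have e3 : 2 * ((2 * m + 1).choose m : ℝ) / 4 ^ (m + 1) =
        ((2 * m + 1).choose m : ℝ) / 2 ^ (2 * m + 1) := by
      have : (4 : ℝ) ^ (m + 1) = 2 * 2 ^ (2 * m + 1) := by
        rw [show (4 : ℝ) = 2 ^ 2 by norm_num, ← pow_mul, ← pow_succ']
        congr 1
      rw [this]
      field_simp
    rw [e3] at h
    refine h.trans ?_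
    push_cast
    rw [div_le_div_iff₀ (by positivity) (by positivity)]
    have : (0 : ℝ) ≤ m := Nat.cast_nonneg m
    nlinarith

/-- the bound on the transition probabilities -/
theorem pk_st (L t : ℕ) (ht : 2 * t < L) (x y : Fin 2 → ZMod L) :
    pk (st L) t x y ≤ 1 / ((t : ℝ) + 1) := by
  refine (pk_le_bb L t x y).trans ?_
  refine le_trans ?_ (mid_sq t)
  rw [sq]
  have h1 := bb_le L t ht ((y 0 + y 1) - (x 0 + x 1))
  have h2 := bb_le L t ht ((y 0 - y 1) - (x 0 - x 1))
  have h3 := bb_nonneg L t ((y 0 - y 1) - (x 0 - x 1))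
  gcongr

end Pool.Agent.Q235.D2
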