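import Pool.Agent.Q235.D2.Rec
import Pool.Agent.Q235.D2.Tor
import Pool.Agent.H4R2.LO.Defs

/-!
# From the walk to form bounds for the Anderson model on the two-dimensional torus
-/

set_option autoImplicit false

open scoped BigOperators
open Filter MeasureTheory

namespace Pool.Agent.Q235.D2

section walk

variable {A : Type*} [AddCommGroup A]

/-- iterates of `D⁻¹ P` applied to `1` -/
noncomputable def Pn (s : Fin 4 → A) (D : A → ℝ) : ℕ → A → ℝ
  | 0, _ => 1
  | n + 1, x => (D x)⁻¹ * ((1 / 4) * ∑ i, Pn s D n (x + s i))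

theorem Pn_zero (s : Fin 4 → A) (D : A → ℝ) (x : A) : Pn s D 0 x = 1 := rfl

theorem Pn_succ (s : Fin 4 → A) (D : A → ℝ) (n : ℕ) (x : A) :
    Pn s D (n + 1) x = (D x)⁻¹ * ((1 / 4) * ∑ i, Pn s D n (x + s i)) := rfl

theorem Pn_Ex (s : Fin 4 → A) (D : A → ℝ) : ∀ (n : ℕ) (x : A),
    Pn s D (n + 1) x = Ex s n x (fun l => (l.map fun a => (D a)⁻¹).prod)
  | 0, x => by
    rw [Pn_succ, Ex_zero]
    simp [Pn_zero]
  | n + 1, x => by
    rw [Pn_succ, Ex_succ]
    simp only [List.map_cons, List.prod_cons]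
    simp only [Pn_Ex s D n, Ex_smul]
    rw [← Finset.mul_sum]
    ring

theorem Pn_pos (s : Fin 4 → A) (D : A → ℝ) (hD : ∀ x, 0 < D x) : ∀ (n : ℕ) (x : A),
    0 < Pn s D n x
  | 0, x => by rw [Pn_zero]; norm_num
  | n + 1, x => by
    rw [Pn_succ]
    have h := Finset.sum_pos (fun i (_ : i ∈ (Finset.univ : Finset (Fin 4))) =>
      Pn_pos s D hD n (x + s i)) Finset.univ_nonempty
    have h2 := hD x
    positivity

variable [Fintype A]

/-- the form inequality from a supersolution -/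
theorem barta (s : Fin 4 → A) (nu : Fin 4 ≃ Fin 4) (hs : ∀ i, s (nu i) = -s i) (D ψ : A → ℝ)
    (hψ : ∀ x, 0 < ψ x) (h : ∀ x, (1 / 4) * ∑ i, ψ (x + s i) ≤ D x * ψ x) (f : A → ℝ) :
    ∑ x, f x * ((1 / 4) * ∑ i, f (x + s i)) ≤ ∑ x, D x * f x ^ 2 := by
  have h1 : ∀ x i, f x * f (x + s i) ≤
      (f x ^ 2 * (ψ (x + s i) / ψ x) + f (x + s i) ^ 2 * (ψ x / ψ (x + s i))) / 2 := by
    intro x i
    have ha := hψ x
    have hb := hψ (x + s i)
    have e : (f x ^ 2 * (ψ (x + s i) / ψ x) + f (x + s i) ^ 2 * (ψ x / ψ (x + s i))) / 2 -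
        f x * f (x + s i) = (f x * ψ (x + s i) - f (x + s i) * ψ x) ^ 2 /
          (2 * ψ x * ψ (x + s i)) := by
      field_simp
      ring
    have : 0 ≤ (f x * ψ (x + s i) - f (x + s i) * ψ x) ^ 2 / (2 * ψ x * ψ (x + s i)) := by
      positivity
    linarith
  have h2 : ∑ x, ∑ i, f (x + s i) ^ 2 * (ψ x / ψ (x + s i)) =
      ∑ x, ∑ i, f x ^ 2 * (ψ (x + s i) / ψ x) := by
    rw [Finset.sum_comm]
    have h3 : ∀ i, ∑ x, f (x + s i) ^ 2 * (ψ x / ψ (x + s i)) =
        ∑ x, f x ^ 2 * (ψ (x + s (nu i)) / ψ x) := by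
      intro i
      refine Fintype.sum_equiv (Equiv.addRight (s i)) _ _ fun x => ?_
      rw [Equiv.coe_addRight, hs i, add_neg_cancel_right]
    rw [Finset.sum_congr rfl fun i _ => h3 i, Finset.sum_comm]
    refine Finset.sum_congr rfl fun x _ => ?_
    exact Equiv.sum_comp nu (fun i => f x ^ 2 * (ψ (x + s i) / ψ x))
  have h4 : ∑ x, ∑ i, f x * f (x + s i) ≤ ∑ x, ∑ i, f x ^ 2 * (ψ (x + s i) / ψ x) := by
    have h5 : ∑ x, ∑ i, f x * f (x + s i) ≤ ∑ x, ∑ i,
        (f x ^ 2 * (ψ (x + s i) / ψ x) + f (x + s i) ^ 2 * (ψ x / ψ (x + s i))) / 2 :=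
      Finset.sum_le_sum fun x _ => Finset.sum_le_sum fun i _ => h1 x i
    simp only [← Finset.sum_div, Finset.sum_add_distrib] at h5
    rw [h2] at h5
    linarith
  have h6 : ∀ x, ∑ i, f x ^ 2 * (ψ (x + s i) / ψ x) ≤ 4 * (D x * f x ^ 2) := by
    intro x
    have ha := hψ x
    have h7 : ∑ i, f x ^ 2 * (ψ (x + s i) / ψ x) = f x ^ 2 / ψ x * ∑ i, ψ (x + s i) := by
      rw [Finset.mul_sum]
      refine Finset.sum_congr rfl fun i _ => ?_
      ring
    rw [h7]
    have h8 : ∑ i, ψ (x + s i) ≤ 4 * (D x * ψ x) := by linarith [h x]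
    calc f x ^ 2 / ψ x * ∑ i, ψ (x + s i) ≤ f x ^ 2 / ψ x * (4 * (D x * ψ x)) :=
          mul_le_mul_of_nonneg_left h8 (by positivity)
      _ = _ := by field_simp
  have h9 := Finset.sum_le_sum fun x (_ : x ∈ (Finset.univ : Finset A)) => h6 x
  rw [← Finset.mul_sum] at h9
  have h10 : ∑ x, f x * ((1 / 4) * ∑ i, f (x + s i)) = (1 / 4) * ∑ x, ∑ i, f x * f (x + s i) := by
    rw [Finset.mul_sum]
    refine Finset.sum_congr rfl fun x _ => ?_
    rw [← Finset.mul_sum]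
    ring
  rw [h10]
  linarith

theorem form_of_Pn (s : Fin 4 → A) (nu : Fin 4 ≃ Fin 4) (hs : ∀ i, s (nu i) = -s i) (D : A → ℝ)
    (hD : ∀ x, 0 < D x) (N : ℕ) (hN : 1 ≤ N) (h : ∀ x, Pn s D N x ≤ 1) (f : A → ℝ) :
    ∑ x, f x * ((1 / 4) * ∑ i, f (x + s i)) ≤ ∑ x, D x * f x ^ 2 := by
  refine barta s nu hs D (fun x => ∑ j ∈ Finset.range N, Pn s D j x) (fun x => ?_) (fun x => ?_) f
  · refine Finset.sum_pos (fun j _ => Pn_pos s D hD j x) ?_
    rw [Finset.nonempty_range_iff]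
    omega
  · have h1 : (1 / 4) * ∑ i, ∑ j ∈ Finset.range N, Pn s D j (x + s i) =
        ∑ j ∈ Finset.range N, D x * Pn s D (j + 1) x := by
      rw [Finset.sum_comm, Finset.mul_sum]
      refine Finset.sum_congr rfl fun j _ => ?_
      rw [Pn_succ, ← mul_assoc, mul_inv_cancel₀ (hD x).ne', one_mul]
    rw [h1, ← Finset.mul_sum]
    refine mul_le_mul_of_nonneg_left ?_ (hD x).le
    have h2 := Finset.sum_range_succ' (fun j => Pn s D j x) N
    have h3 := Finset.sum_range_succ (fun j => Pn s D j x) N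
    rw [Pn_zero] at h2
    linarith [h x]

end walk

section integral

variable {A : Type*} [AddCommGroup A] {Ω : Type*} [MeasurableSpace Ω]

theorem integrable_Ex (s : Fin 4 → A) (P : Measure Ω) : ∀ (n : ℕ) (x : A)
    (F : Ω → List A → ℝ), (∀ l, Integrable (fun ω => F ω l) P) →
    Integrable (fun ω => Ex s n x (F ω)) P
  | 0, x, F, h => h _
  | n + 1, x, F, h => by
    simp only [Ex_succ]
    refine Integrable.const_mul (integrable_finsetSum _ fun i _ => ?_) _
    exact integrable_Ex s P n (x + s i) (fun ω l => F ω (x :: l)) fun l => h _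

theorem integral_Ex (s : Fin 4 → A) (P : Measure Ω) : ∀ (n : ℕ) (x : A)
    (F : Ω → List A → ℝ), (∀ l, Integrable (fun ω => F ω l) P) →
    ∫ ω, Ex s n x (F ω) ∂P = Ex s n x (fun l => ∫ ω, F ω l ∂P)
  | 0, x, F, h => rfl
  | n + 1, x, F, h => by
    simp only [Ex_succ]
    rw [integral_const_mul, integral_finsetSum _ fun i _ =>
      integrable_Ex s P n (x + s i) (fun ω l => F ω (x :: l)) fun l => h _]
    congr 1
    refine Finset.sum_congr rfl fun i _ => ?_
    exact integral_Ex s P n (x + s i) (fun ω l => F ω (x :: l)) fun l => h _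

end integral

/-- truncation to `[-1, 1]` -/
noncomputable def cl (t : ℝ) : ℝ := max (-1) (min 1 t)

theorem cl_abs (t : ℝ) : |cl t| ≤ 1 := by
  unfold cl
  rw [abs_le]
  constructor
  · exact le_max_left _ _
  · exact max_le (by norm_num) (min_le_left _ _)

theorem cl_eq {t : ℝ} (h : t ∈ Set.Icc (-1 : ℝ) 1) : cl t = t := by
  unfold cl
  rw [min_eq_right h.2, max_eq_right h.1]

theorem cl_meas : Measurable cl := by
  unfold cl
  fun_prop

theorem one_le_exp_aux {w : ℝ} (hw : |w| ≤ 1 / 4) : 1 ≤ (1 + w) * Real.exp (-w + w ^ 2) := by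
  rw [abs_le] at hw
  rcases le_total 0 w with h | h
  · have h1 := Real.add_one_le_exp (-w + w ^ 2)
    have h2 : (1 + w) * (-w + w ^ 2 + 1) ≤ (1 + w) * Real.exp (-w + w ^ 2) :=
      mul_le_mul_of_nonneg_left h1 (by linarith)
    nlinarith [mul_nonneg (mul_nonneg h h) h]
  · have h1 := Real.quadratic_le_exp_of_nonneg (x := -w + w ^ 2) (by nlinarith)
    have h2 := mul_le_mul_of_nonneg_left h1 (by linarith : 0 ≤ 1 + w)
    refine le_trans ?_ h2
    set v := -w with hv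
    have hv0 : 0 ≤ v := by linarith
    have hv1 : v ≤ 1 / 4 := by linarith
    have hw' : w = -v := by linarith
    rw [hw']
    have h3 : 0 ≤ v ^ 2 * ((1 - v ^ 2) * (1 + v) / 2 - v) := by
      refine mul_nonneg (sq_nonneg v) ?_
      nlinarith [mul_nonneg hv0 hv0, mul_nonneg (mul_nonneg hv0 hv0) hv0]
    nlinarith [h3]

/-- the single-site factor -/
noncomputable def Dv (η lam t : ℝ) : ℝ := 1 + η + lam * cl t / 4

theorem Dv_pos {η lam : ℝ} (hη : 0 ≤ η) (hl0 : 0 ≤ lam) (hl : lam ≤ 1) (t : ℝ) :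
    3 / 4 ≤ Dv η lam t := by
  unfold Dv
  have h := abs_le.1 (cl_abs t)
  nlinarith [h.1]

theorem Dv_meas (η lam : ℝ) : Measurable (Dv η lam) := by
  unfold Dv
  exact ((cl_meas.const_mul lam).div_const 4).const_add _

theorem Dv_inv_le {η lam : ℝ} (hη : 0 ≤ η) (hl0 : 0 ≤ lam) (hl : lam ≤ 1) (t : ℝ) :
    (Dv η lam t)⁻¹ ≤ (1 + η)⁻¹ * Real.exp (-(lam / (4 * (1 + η)) * cl t) + lam ^ 2 / 16) := by
  have hD := Dv_pos hη hl0 hl t
  have hc := cl_abs t
  set w : ℝ := lam / (4 * (1 + η)) * cl t with hw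
  have hwa : |w| ≤ lam / 4 := by
    rw [hw, abs_mul, abs_of_nonneg (by positivity)]
    have h1 : lam / (4 * (1 + η)) ≤ lam / 4 := by
      apply div_le_div_of_nonneg_left hl0 (by norm_num)
      linarith
    calc lam / (4 * (1 + η)) * |cl t| ≤ lam / 4 * 1 :=
          mul_le_mul h1 hc (abs_nonneg _) (by positivity)
      _ = lam / 4 := mul_one _
  have h1 := one_le_exp_aux (w := w) (by linarith)
  have e : Dv η lam t = (1 + η) * (1 + w) := by
    rw [hw]
    unfold Dv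
    field_simp
  have hw0 : 0 < 1 + w := by
    have := abs_le.1 hwa
    linarith [this.1]
  rw [e, mul_inv]
  refine mul_le_mul_of_nonneg_left ?_ (by positivity)
  rw [inv_le_iff_one_le_mul₀ hw0]
  refine h1.trans ?_
  rw [mul_comm]
  refine mul_le_mul_of_nonneg_right (Real.exp_le_exp.2 ?_) hw0.le
  have h2 : w ^ 2 ≤ (lam / 4) ^ 2 := by
    rw [← sq_abs w]
    exact pow_le_pow_left₀ (abs_nonneg _) hwa 2
  nlinarith

theorem single (μ : Measure ℝ) [IsProbabilityMeasure μ] (hμ : μ (Set.Icc (-1) 1)ᶜ = 0)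
    (hm : ∫ t, t ∂μ = 0) {η lam : ℝ} (hη : 0 ≤ η) (hl0 : 0 ≤ lam) (hl : lam ≤ 1) (m : ℕ) :
    ∫ t, (Dv η lam t)⁻¹ ^ m ∂μ ≤ (1 + η)⁻¹ ^ m * Real.exp (3 / 32 * lam ^ 2 * (m : ℝ) ^ 2) := by
  have hae : ∀ᵐ t ∂μ, t ∈ Set.Icc (-1 : ℝ) 1 := by
    rw [ae_iff]
    exact hμ
  rcases Nat.eq_zero_or_pos m with rfl | hm0
  · simp
  have hm1 : (1 : ℝ) ≤ m := by exact_mod_cast hm0
  set θ : ℝ := -(m * (lam / (4 * (1 + η)))) with hθ
  have hsub := ProbabilityTheory.hasSubgaussianMGF_of_mem_Icc_of_integral_eq_zero (μ := μ)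
    (X := fun t : ℝ => t) (a := -1) (b := 1) measurable_id.aemeasurable hae hm
  have hmgf := hsub.mgf_le θ
  have hint := hsub.integrable_exp_mul θ
  unfold ProbabilityTheory.mgf at hmgf
  have hpt : ∀ᵐ t ∂μ, (Dv η lam t)⁻¹ ^ m ≤ ((1 + η)⁻¹ ^ m * Real.exp (m * (lam ^ 2 / 16))) *
      Real.exp (θ * t) := by
    filter_upwards [hae] with t ht
    have h1 := Dv_inv_le hη hl0 hl t
    have hD := Dv_pos hη hl0 hl t
    have h2 := pow_le_pow_left₀ (by positivity) h1 m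
    refine h2.trans (le_of_eq ?_)
    rw [mul_pow, ← Real.exp_nat_mul, cl_eq ht, mul_assoc, ← Real.exp_add, hθ]
    congr 2
    ring
  have hle : ∫ t, (Dv η lam t)⁻¹ ^ m ∂μ ≤ ∫ t, ((1 + η)⁻¹ ^ m *
      Real.exp (m * (lam ^ 2 / 16))) * Real.exp (θ * t) ∂μ := by
    refine integral_mono_of_nonneg (Eventually.of_forall fun t => ?_) (hint.const_mul _) hpt
    have hD := Dv_pos hη hl0 hl t
    positivity
  refine hle.trans ?_
  rw [integral_const_mul]
  have hcst : ((((‖(1 : ℝ) - -1‖₊ / 2) ^ 2 : NNReal) : ℝ)) = 1 := by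
    push_cast
    norm_num
  rw [hcst] at hmgf
  calc (1 + η)⁻¹ ^ m * Real.exp (m * (lam ^ 2 / 16)) * ∫ t, Real.exp (θ * t) ∂μ
      ≤ (1 + η)⁻¹ ^ m * Real.exp (m * (lam ^ 2 / 16)) * Real.exp (1 * θ ^ 2 / 2) :=
        mul_le_mul_of_nonneg_left hmgf (by positivity)
    _ = (1 + η)⁻¹ ^ m * Real.exp (m * (lam ^ 2 / 16) + θ ^ 2 / 2) := by
        rw [Real.exp_add, mul_assoc, one_mul]
    _ ≤ _ := by
        refine mul_le_mul_of_nonneg_left (Real.exp_le_exp.2 ?_) (by positivity)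
        have h3 : θ ^ 2 ≤ (m * (lam / 4)) ^ 2 := by
          rw [hθ, neg_sq]
          refine pow_le_pow_left₀ (by positivity) ?_ 2
          refine mul_le_mul_of_nonneg_left ?_ (by positivity)
          apply div_le_div_of_nonneg_left hl0 (by norm_num)
          linarith
        have h4 : (m : ℝ) * (lam ^ 2 / 16) ≤ (m : ℝ) ^ 2 * (lam ^ 2 / 16) := by
          refine mul_le_mul_of_nonneg_right ?_ (by positivity)
          nlinarith
        nlinarith [h3, h4]

section torus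

variable {A : Type*} [AddCommGroup A] [DecidableEq A] [Fintype A]

omit [AddCommGroup A] in
theorem prod_count (g : A → ℝ) (l : List A) : (l.map g).prod = ∏ y, g y ^ l.count y := by
  rw [Finset.prod_list_map_count]
  refine Finset.prod_subset (Finset.subset_univ _) fun y _ hy => ?_
  rw [List.mem_toFinset] at hy
  rw [List.count_eq_zero_of_not_mem hy, pow_zero]

omit [AddCommGroup A] in
theorem sum_count (l : List A) : ∑ y, l.count y = l.length := by
  rw [← List.sum_toFinset_count_eq_length l]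
  symm
  refine Finset.sum_subset (Finset.subset_univ _) fun y _ hy => ?_
  rw [List.mem_toFinset] at hy
  exact List.count_eq_zero_of_not_mem hy

omit [AddCommGroup A] in
theorem path_int (μ : Measure ℝ) [IsProbabilityMeasure μ] (hμ : μ (Set.Icc (-1) 1)ᶜ = 0)
    (hm : ∫ t, t ∂μ = 0) {η lam : ℝ} (hη : 0 ≤ η) (hl0 : 0 ≤ lam) (hl : lam ≤ 1) (l : List A) :
    ∫ V : A → ℝ, (l.map fun a => (Dv η lam (V a))⁻¹).prod ∂(Measure.pi fun _ : A => μ) ≤
      (1 + η)⁻¹ ^ l.length * Real.exp (3 / 32 * lam ^ 2 * In l) := by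
  have h1 : (fun V : A → ℝ => (l.map fun a => (Dv η lam (V a))⁻¹).prod) =
      fun V : A → ℝ => ∏ y, (fun t : ℝ => (Dv η lam t)⁻¹ ^ l.count y) (V y) := by
    funext V
    rw [prod_count]
  rw [h1]
  have h2 := integral_fintype_prod_eq_prod (𝕜 := ℝ) (ι := A) (μ := fun _ => μ)
    (fun y => fun t : ℝ => (Dv η lam t)⁻¹ ^ l.count y)
  rw [h2]
  calc ∏ y, ∫ t, (Dv η lam t)⁻¹ ^ l.count y ∂μ
      ≤ ∏ y, ((1 + η)⁻¹ ^ l.count y * Real.exp (3 / 32 * lam ^ 2 * (l.count y : ℝ) ^ 2)) := by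
        refine Finset.prod_le_prod (fun y _ => ?_) fun y _ => single μ hμ hm hη hl0 hl _
        refine integral_nonneg fun t => ?_
        have hD := Dv_pos hη hl0 hl t
        positivity
    _ = _ := by
        rw [Finset.prod_mul_distrib, Finset.prod_pow_eq_pow_sum, sum_count, ← Real.exp_sum]
        unfold In
        rw [Finset.mul_sum]

omit [AddCommGroup A] [DecidableEq A] in
theorem path_integrable (μ : Measure ℝ) [IsProbabilityMeasure μ] {η lam : ℝ} (hη : 0 ≤ η)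
    (hl0 : 0 ≤ lam) (hl : lam ≤ 1) (l : List A) :
    Integrable (fun V : A → ℝ => (l.map fun a => (Dv η lam (V a))⁻¹).prod)
      (Measure.pi fun _ : A => μ) := by
  have hmeas : Measurable fun V : A → ℝ => (l.map fun a => (Dv η lam (V a))⁻¹).prod := by
    induction l with
    | nil => simp only [List.map_nil, List.prod_nil]; exact measurable_const
    | cons b l ih =>
      simp only [List.map_cons, List.prod_cons]
      exact (((Dv_meas η lam).comp (measurable_pi_apply b)).inv).mul ih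
  refine Integrable.of_bound hmeas.aestronglyMeasurable (2 ^ l.length)
    (Eventually.of_forall fun V => ?_)
  clear hmeas
  induction l with
  | nil => simp
  | cons b l ih =>
    simp only [List.map_cons, List.prod_cons, List.length_cons]
    rw [norm_mul, pow_succ, mul_comm]
    refine mul_le_mul ih ?_ (norm_nonneg _) (by positivity)
    have hD := Dv_pos hη hl0 hl (V b)
    rw [norm_inv, Real.norm_of_nonneg (by linarith)]
    rw [inv_le_comm₀ (by linarith) (by norm_num)]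
    norm_num
    linarith

theorem Pn_int (s : Fin 4 → A) (μ : Measure ℝ) [IsProbabilityMeasure μ]
    (hμ : μ (Set.Icc (-1) 1)ᶜ = 0) (hm : ∫ t, t ∂μ = 0) {η lam : ℝ} (hη : 0 ≤ η) (hl0 : 0 ≤ lam)
    (hl : lam ≤ 1) (n : ℕ) (x : A) :
    ∫ V : A → ℝ, Pn s (fun a => Dv η lam (V a)) (n + 1) x ∂(Measure.pi fun _ : A => μ) ≤
      (1 + η)⁻¹ ^ (n + 1) * Zk s n (3 / 32 * lam ^ 2) := by
  simp only [Pn_Ex]
  rw [integral_Ex s _ n x _ fun l => path_integrable μ hη hl0 hl l]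
  rw [← Ex_exp_shift s n _ x, ← Ex_smul]
  refine Ex_mono s n x _ _ fun l hl' => ?_
  have h := path_int μ hμ hm hη hl0 hl (x :: l)
  rwa [List.length_cons, hl'] at h

theorem Pn_integrable (s : Fin 4 → A) (μ : Measure ℝ) [IsProbabilityMeasure μ]
    {η lam : ℝ} (hη : 0 ≤ η) (hl0 : 0 ≤ lam) (hl : lam ≤ 1) (n : ℕ) (x : A) :
    Integrable (fun V : A → ℝ => Pn s (fun a => Dv η lam (V a)) (n + 1) x)
      (Measure.pi fun _ : A => μ) := by
  simp only [Pn_Ex]
  exact integrable_Ex s _ n x _ fun l => path_integrable μ hη hl0 hl l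

theorem Pn_meas (s : Fin 4 → A) (η lam : ℝ) : ∀ (n : ℕ) (x : A),
    Measurable (fun V : A → ℝ => Pn s (fun a => Dv η lam (V a)) n x)
  | 0, x => measurable_const
  | n + 1, x => by
    simp only [Pn_succ]
    refine ((Dv_meas η lam).comp (measurable_pi_apply x)).inv.mul
      ((Finset.measurable_sum _ fun i _ => ?_).const_mul _)
    exact Pn_meas s η lam n (x + s i)

/-- the good event and its probability -/
theorem good_event (s : Fin 4 → A) (μ : Measure ℝ) [IsProbabilityMeasure μ]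
    (hμ : μ (Set.Icc (-1) 1)ᶜ = 0) (hm : ∫ t, t ∂μ = 0) {η lam : ℝ} (hη : 0 ≤ η) (hl0 : 0 ≤ lam)
    (hl : lam ≤ 1) (n : ℕ) :
    MeasurableSet {V : A → ℝ | (∀ x, V x ∈ Set.Icc (-1 : ℝ) 1) ∧
      ∀ x, Pn s (fun a => Dv η lam (V a)) (n + 1) x ≤ 1} ∧
    1 - (Fintype.card A : ℝ) * ((1 + η)⁻¹ ^ (n + 1) * Zk s n (3 / 32 * lam ^ 2)) ≤
      (Measure.pi fun _ : A => μ).real {V : A → ℝ | (∀ x, V x ∈ Set.Icc (-1 : ℝ) 1) ∧
        ∀ x, Pn s (fun a => Dv η lam (V a)) (n + 1) x ≤ 1} := by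
  set G : Set (A → ℝ) := {V : A → ℝ | (∀ x, V x ∈ Set.Icc (-1 : ℝ) 1) ∧
      ∀ x, Pn s (fun a => Dv η lam (V a)) (n + 1) x ≤ 1} with hG
  have hGm : MeasurableSet G := by
    have e : G = (⋂ x, (fun V : A → ℝ => V x) ⁻¹' Set.Icc (-1 : ℝ) 1) ∩
        ⋂ x, {V | Pn s (fun a => Dv η lam (V a)) (n + 1) x ≤ 1} := by
      ext V
      simp [hG]
    rw [e]
    refine (MeasurableSet.iInter fun x => measurable_pi_apply x measurableSet_Icc).inter
      (MeasurableSet.iInter fun x => measurableSet_le (Pn_meas s η lam _ x) measurable_const)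
  refine ⟨hGm, ?_⟩
  have hsub : Gᶜ ⊆ ⋃ x, (((fun V : A → ℝ => V x) ⁻¹' (Set.Icc (-1 : ℝ) 1)ᶜ) ∪
      {V | 1 ≤ Pn s (fun a => Dv η lam (V a)) (n + 1) x}) := by
    intro V hV
    rw [Set.mem_compl_iff, hG, Set.mem_setOf_eq, not_and_or] at hV
    rw [Set.mem_iUnion]
    rcases hV with h | h
    · push Not at h
      obtain ⟨x, hx⟩ := h
      exact ⟨x, Or.inl hx⟩
    · push Not at h
      obtain ⟨x, hx⟩ := h
      exact ⟨x, Or.inr hx.le⟩
  have h1 : (Measure.pi fun _ : A => μ).real Gᶜ ≤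
      ∑ x : A, ((1 + η)⁻¹ ^ (n + 1) * Zk s n (3 / 32 * lam ^ 2)) := by
    refine (measureReal_mono hsub (measure_ne_top _ _)).trans ?_
    refine (measureReal_iUnion_fintype_le _).trans (Finset.sum_le_sum fun x _ => ?_)
    refine (measureReal_union_le _ _).trans ?_
    have h2 : (Measure.pi fun _ : A => μ).real
        ((fun V : A → ℝ => V x) ⁻¹' (Set.Icc (-1 : ℝ) 1)ᶜ) = 0 := by
      have h3 := (measurePreserving_eval (fun _ : A => μ) x).measure_preimage
        (measurableSet_Icc (a := (-1 : ℝ)) (b := 1)).compl.nullMeasurableSet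
      rw [measureReal_def]
      have h4 : (Function.eval x : (A → ℝ) → ℝ) = fun V : A → ℝ => V x := rfl
      rw [h4] at h3
      rw [h3, hμ]
      simp
    rw [h2, zero_add]
    have h5 := mul_meas_ge_le_integral_of_nonneg (μ := Measure.pi fun _ : A => μ)
      (f := fun V : A → ℝ => Pn s (fun a => Dv η lam (V a)) (n + 1) x)
      (Eventually.of_forall fun V => (Pn_pos s _ (fun a => by
        have := Dv_pos hη hl0 hl (V a)
        linarith) _ x).le) (Pn_integrable s μ hη hl0 hl n x) 1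
    rw [one_mul] at h5
    exact h5.trans (Pn_int s μ hμ hm hη hl0 hl n x)
  rw [Finset.sum_const, Finset.card_univ, nsmul_eq_mul] at h1
  rw [probReal_compl_eq_one_sub hGm] at h1
  linarith

end torus

/-- the form bound for the Anderson model on the two-dimensional torus -/
theorem torusBound (L : ℕ) [NeZero L] (k : ℕ) (hk : 2 * 2 ^ k < L) (μ : Measure ℝ)
    [IsProbabilityMeasure μ] (hμ : μ (Set.Icc (-1) 1)ᶜ = 0) (hm : ∫ t, t ∂μ = 0) {η lam : ℝ}
    (hη : 0 ≤ η) (hl0 : 0 ≤ lam) (hl : lam ≤ 1) (hkl : 44 * 2 ^ k * (3 / 32 * lam ^ 2) ≤ 1) :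
    H4R2.LO.TorusBound 2 L μ lam (-4 * η) ((L : ℝ) ^ 2 * ((1 + η)⁻¹ ^ (2 ^ k) *
      Real.exp ((22 * k + 1) * 2 ^ k * (3 / 32 * lam ^ 2)))) := by
  have h1k : 1 ≤ 2 ^ k := Nat.one_le_two_pow
  have e : 2 ^ k - 1 + 1 = 2 ^ k := Nat.sub_add_cancel h1k
  obtain ⟨hGm, hG⟩ := good_event (A := Fin 2 → ZMod L) (st L) μ hμ hm hη hl0 hl (2 ^ k - 1)
  rw [e] at hGm hG
  refine ⟨_, hGm, ?_, ?_⟩
  · refine le_trans ?_ hG
    have hZ := Zk_bound (st L) nu4 (st_nu L) k (fun t ht x => pk_st L t (by omega) x x)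
      (3 / 32 * lam ^ 2) (by positivity) hkl
    have hc : (Fintype.card (Fin 2 → ZMod L) : ℝ) = (L : ℝ) ^ 2 := by
      rw [Fintype.card_fun, ZMod.card, Fintype.card_fin]
      push_cast
      rfl
    rw [hc]
    have h2 : (0 : ℝ) ≤ (1 + η)⁻¹ ^ (2 ^ k) := by positivity
    gcongr
  · rintro V ⟨hV1, hV2⟩ f
    have h3 := form_of_Pn (st L) nu4 (st_nu L) (fun a => Dv η lam (V a)) (fun a => by
      have := Dv_pos hη hl0 hl (V a)
      linarith) (2 ^ k) h1k hV2 f
    have h4 : ∀ x, f x * (∑ i : Fin 2, (2 * f x - f (x + Pi.single i 1) - f (x - Pi.single i 1)) +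
        lam * V x * f x) = 4 * (Dv η lam (V x) * f x ^ 2) - 4 * η * f x ^ 2 -
          4 * (f x * ((1 / 4) * ∑ i, f (x + st L i))) := by
      intro x
      have h5 : ∑ i, f (x + st L i) = ∑ i : Fin 2, (f (x + Pi.single i 1) +
          f (x - Pi.single i 1)) := by
        rw [Fin.sum_univ_four, Fin.sum_univ_two]
        simp only [st, Matrix.cons_val_zero, Matrix.cons_val_one, Matrix.cons_val,
          sub_eq_add_neg]
        ring
      rw [h5, Fin.sum_univ_two, Fin.sum_univ_two]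
      unfold Dv
      rw [cl_eq (hV1 x)]
      ring
    rw [Finset.sum_congr rfl fun x _ => h4 x, Finset.sum_sub_distrib, Finset.sum_sub_distrib,
      ← Finset.mul_sum, ← Finset.mul_sum, ← Finset.mul_sum]
    linarith

end Pool.Agent.Q235.D2
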