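import Pool.Agent.Q235.D2.Expo

/-!
# Exponential moments of the self-intersection local time of the planar walk
-/

set_option autoImplicit false

open scoped BigOperators
open Filter

namespace Pool.Agent.Q235.D2

variable {A : Type*} [AddCommGroup A] [DecidableEq A] [Fintype A]

/-- the number of self-intersections (pairs of times, equal times included) -/
noncomputable def In (l : List A) : ℝ := ∑ y, (l.count y : ℝ) ^ 2

theorem In_append (l l' : List A) : In (l ++ l') = In l + In l' + 2 * Jn l l' := by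
  unfold In Jn
  rw [Finset.mul_sum, ← Finset.sum_add_distrib, ← Finset.sum_add_distrib]
  refine Finset.sum_congr rfl fun y _ => ?_
  rw [List.count_append]
  push_cast
  ring

theorem In_reverse (l : List A) : In l.reverse = In l := by
  unfold In
  simp only [List.count_reverse]

theorem Jn_reverse (l l' : List A) : Jn l.reverse l' = Jn l l' := by
  unfold Jn
  simp only [List.count_reverse]

theorem count_shift (l : List A) (u y : A) : (l.map (· + u)).count (y + u) = l.count y := by
  exact List.count_map_of_injective l (· + u) (add_left_injective u) y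

theorem In_shift (l : List A) (u : A) : In (l.map (· + u)) = In l := by
  unfold In
  rw [← Equiv.sum_comp (Equiv.addRight u)]
  refine Finset.sum_congr rfl fun y _ => ?_
  rw [Equiv.coe_addRight, count_shift]

theorem Jn_shift (l l' : List A) (u : A) : Jn (l.map (· + u)) (l'.map (· + u)) = Jn l l' := by
  unfold Jn
  rw [← Equiv.sum_comp (Equiv.addRight u)]
  refine Finset.sum_congr rfl fun y _ => ?_
  rw [Equiv.coe_addRight, count_shift, count_shift]

omit [DecidableEq A] [Fintype A] in
theorem lst_shift (x : A) (l : List A) (u : A) : lst ((x :: l).map (· + u)) = lst (x :: l) + u := by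
  unfold lst
  rw [List.getLastD_eq_getLast?, List.getLastD_eq_getLast?, List.getLast?_map]
  rw [List.getLast?_eq_some_getLast (List.cons_ne_nil x l)]
  rfl

omit [DecidableEq A] [Fintype A] in
theorem lst_reverse (x : A) (l : List A) : lst (x :: l).reverse = x := by
  rw [List.reverse_cons]
  exact lst_append _ x

/-- expectation from `0` of a translation invariant functional of the reversed path -/
theorem Ex_rev_zero (s : Fin 4 → A) (nu : Fin 4 ≃ Fin 4) (hs : ∀ i, s (nu i) = -s i) (n : ℕ)
    (Φ : List A → ℝ) (hΦ : ∀ x l u, Φ ((x :: l).map (· + u)) = Φ (x :: l)) :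
    Ex s n 0 Φ = Ex s n 0 (fun l => Φ l.reverse) := by
  have h1 : ∀ x : A, Ex s n x Φ = Ex s n 0 Φ := by
    intro x
    have h := Ex_shift s x n 0 Φ
    rw [zero_add] at h
    rw [h]
    exact Ex_congr s n 0 _ _ fun l _ => hΦ 0 l x
  have h2 : ∀ x : A, Ex s n x (fun l => Φ l.reverse) = Ex s n 0 (fun l => Φ l.reverse) := by
    intro x
    have h := Ex_shift s x n 0 (fun l => Φ l.reverse)
    rw [zero_add] at h
    rw [h]
    refine Ex_congr s n 0 _ _ fun l _ => ?_
    rw [← List.map_reverse]
    have h3 : (0 :: l).reverse ≠ [] := by simp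
    obtain ⟨y, t, hy⟩ := List.exists_cons_of_ne_nil h3
    rw [hy]
    exact hΦ y t x
  have h3 := Ex_rev s nu hs n Φ
  simp only [h1, h2, Finset.sum_const, nsmul_eq_mul] at h3
  have hc : (Finset.card (Finset.univ : Finset A) : ℝ) ≠ 0 := by
    rw [Finset.card_univ]
    exact_mod_cast Fintype.card_ne_zero
  exact mul_left_cancel₀ hc h3

/-- exponential moment of the self-intersections -/
noncomputable def Zk (s : Fin 4 → A) (n : ℕ) (α : ℝ) : ℝ :=
  Ex s n 0 (fun l => Real.exp (α * In l))

theorem Ex_exp_shift (s : Fin 4 → A) (n : ℕ) (α : ℝ) (x : A) :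
    Ex s n x (fun l => Real.exp (α * In l)) = Zk s n α := by
  unfold Zk
  have h := Ex_shift s x n 0 (fun l => Real.exp (α * In l))
  rw [zero_add] at h
  rw [h]
  simp only [In_shift]

theorem Zk_pos (s : Fin 4 → A) (n : ℕ) (α : ℝ) (hα : 0 ≤ α) : 1 ≤ Zk s n α := by
  unfold Zk
  have h := Ex_mono s n 0 (fun _ => 1) (fun l => Real.exp (α * In l)) fun l _ => by
    refine Real.one_le_exp (mul_nonneg hα ?_)
    exact Finset.sum_nonneg fun y _ => sq_nonneg _
  rwa [Ex_const] at h

/-- splitting a path at its middle -/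
theorem Zk_split (s : Fin 4 → A) (nu : Fin 4 ≃ Fin 4) (hs : ∀ i, s (nu i) = -s i) (n : ℕ)
    (α : ℝ) : Zk s (n + n + 1) α = (1 / 4) * ∑ i, Ex s n 0 (fun l => Ex s n (s i)
      (fun l' => Real.exp (α * (In l + In l' + 2 * Jn l l')))) := by
  unfold Zk
  rw [Ex_concat]
  rw [Ex_rev_zero s nu hs n]
  · rw [← Ex_sum, ← Ex_smul]
    refine Ex_congr s n 0 _ _ fun l _ => ?_
    rw [lst_reverse]
    simp only [zero_add]
    congr 1
    refine Finset.sum_congr rfl fun i _ => ?_
    simp only [In_append, In_reverse, Jn_reverse]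
  · intro x l u
    rw [lst_shift]
    congr 1
    refine Finset.sum_congr rfl fun i _ => ?_
    rw [add_right_comm, Ex_shift]
    simp only [In_append, In_shift, Jn_shift]

theorem Zk_step (s : Fin 4 → A) (nu : Fin 4 ≃ Fin 4) (hs : ∀ i, s (nu i) = -s i) (n : ℕ)
    (hp : ∀ t, t ≤ 2 * n → ∀ x, pk s t x x ≤ 1 / ((t : ℝ) + 1)) (α : ℝ) (hα0 : 0 ≤ α)
    (hα : 88 * ((n : ℝ) + 1) * α ≤ 1) :
    Zk s (n + n + 1) α ≤ Zk s n (2 * α) * (1 + 44 * ((n : ℝ) + 1) * α) := by
  set Z := Zk s n (2 * α) with hZ
  have hZ1 : 1 ≤ Z := Zk_pos s n _ (by positivity)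
  set b : ℝ := 1 + 44 * ((n : ℝ) + 1) * α with hb
  have hb1 : 1 ≤ b := by
    have : 0 ≤ 44 * ((n : ℝ) + 1) * α := by positivity
    linarith
  have key : ∀ i, Ex s n 0 (fun l => Ex s n (s i)
      (fun l' => Real.exp (α * (In l + In l' + 2 * Jn l l')))) ≤ Z * b := by
    intro i
    have h1 : Ex s n 0 (fun l => Ex s n (s i)
        (fun l' => Real.exp (α * (In l + In l' + 2 * Jn l l')))) ≤
        Ex s n 0 (fun l => Ex s n (s i) (fun l' =>
          (b / (2 * Z)) * (Real.exp (2 * α * In l) * Real.exp (2 * α * In l')) +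
            (Z / (2 * b)) * Real.exp (4 * α * Jn l l'))) := by
      refine Ex_mono s n 0 _ _ fun l _ => Ex_mono s n (s i) _ _ fun l' _ => ?_
      set p := Real.exp (α * (In (0 :: l) + In (s i :: l'))) with hp
      set r := Real.exp (2 * α * Jn (0 :: l) (s i :: l')) with hr
      have e1 : Real.exp (α * (In (0 :: l) + In (s i :: l') + 2 * Jn (0 :: l) (s i :: l'))) =
          p * r := by
        rw [hp, hr, ← Real.exp_add]
        congr 1
        ring
      have e2 : Real.exp (2 * α * In (0 :: l)) * Real.exp (2 * α * In (s i :: l')) = p ^ 2 := by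
        rw [hp, sq, ← Real.exp_add, ← Real.exp_add]
        congr 1
        ring
      have e3 : Real.exp (4 * α * Jn (0 :: l) (s i :: l')) = r ^ 2 := by
        rw [hr, sq, ← Real.exp_add]
        congr 1
        ring
      rw [e1, e2, e3]
      have hZ0 : 0 < Z := by linarith
      have hb0 : 0 < b := by linarith
      have e4 : b / (2 * Z) * p ^ 2 + Z / (2 * b) * r ^ 2 - p * r =
          (b * p - Z * r) ^ 2 / (2 * Z * b) := by
        field_simp
        ring
      have h5 : 0 ≤ (b * p - Z * r) ^ 2 / (2 * Z * b) := by positivity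
      linarith
    refine h1.trans ?_
    have h2 : Ex s n 0 (fun l => Ex s n (s i) (fun l' =>
          (b / (2 * Z)) * (Real.exp (2 * α * In l) * Real.exp (2 * α * In l')) +
            (Z / (2 * b)) * Real.exp (4 * α * Jn l l'))) =
        (b / (2 * Z)) * (Z * Z) + (Z / (2 * b)) *
          Ex s n 0 (fun l => Ex s n (s i) (fun l' => Real.exp (4 * α * Jn l l'))) := by
      have h3 : (fun l => Ex s n (s i) (fun l' =>
          (b / (2 * Z)) * (Real.exp (2 * α * In l) * Real.exp (2 * α * In l')) +
            (Z / (2 * b)) * Real.exp (4 * α * Jn l l'))) = fun l =>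
          (b / (2 * Z)) * (Z * Real.exp (2 * α * In l)) + (Z / (2 * b)) *
            Ex s n (s i) (fun l' => Real.exp (4 * α * Jn l l')) := by
        funext l
        rw [Ex_add, Ex_smul, Ex_smul, Ex_smul, Ex_exp_shift]
        rw [← hZ]
        ring
      rw [h3, Ex_add, Ex_smul, Ex_smul, Ex_smul, Ex_exp_shift]
    rw [h2]
    have h4 := expo s nu hs n hp (4 * α) (by positivity) (by linarith) 0 (s i)
    have h5 : (1 : ℝ) + 22 * ((n : ℝ) + 1) * (4 * α) ≤ b * b := by
      rw [hb]
      have : 0 ≤ 44 * ((n : ℝ) + 1) * α := by positivity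
      nlinarith
    have hZ0 : 0 < Z := by linarith
    have hb0 : 0 < b := by linarith
    calc (b / (2 * Z)) * (Z * Z) + (Z / (2 * b)) *
          Ex s n 0 (fun l => Ex s n (s i) (fun l' => Real.exp (4 * α * Jn l l')))
        ≤ (b / (2 * Z)) * (Z * Z) + (Z / (2 * b)) * (b * b) := by
          gcongr
          exact h4.trans h5
      _ = Z * b := by
          field_simp
          ring
  rw [Zk_split s nu hs]
  have h := Finset.sum_le_sum fun i (_ : i ∈ (Finset.univ : Finset (Fin 4))) => key i
  rw [Finset.sum_const, Finset.card_univ, Fintype.card_fin, nsmul_eq_mul] at h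
  push_cast at h
  linarith

theorem Zk_bound (s : Fin 4 → A) (nu : Fin 4 ≃ Fin 4) (hs : ∀ i, s (nu i) = -s i) (k : ℕ)
    (hp : ∀ t, t ≤ 2 ^ k → ∀ x, pk s t x x ≤ 1 / ((t : ℝ) + 1)) (α : ℝ) (hα0 : 0 ≤ α)
    (hα : 44 * 2 ^ k * α ≤ 1) :
    Zk s (2 ^ k - 1) α ≤ Real.exp ((22 * k + 1) * 2 ^ k * α) := by
  induction k generalizing α with
  | zero =>
    simp only [pow_zero, Nat.sub_self]
    unfold Zk
    rw [Ex_zero]
    refine Real.exp_le_exp.2 ?_
    have : In [(0 : A)] = 1 := by
      unfold In
      rw [Finset.sum_eq_single (0 : A)]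
      · simp
      · intro b _ hb
        rw [List.count_singleton]
        simp [hb.symm]
      · intro h
        exact absurd (Finset.mem_univ _) h
    rw [this]
    simp
  | succ k ih =>
    have e : 2 ^ (k + 1) - 1 = (2 ^ k - 1) + (2 ^ k - 1) + 1 := by
      have : 1 ≤ 2 ^ k := Nat.one_le_two_pow
      rw [pow_succ]
      omega
    have e2 : (((2 ^ k - 1 : ℕ) : ℝ) + 1) = 2 ^ k := by
      have : 1 ≤ 2 ^ k := Nat.one_le_two_pow
      push_cast [Nat.cast_sub this]
      ring
    rw [e]
    have hstep := Zk_step s nu hs (2 ^ k - 1) (fun t ht => hp t (by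
      have : 1 ≤ 2 ^ k := Nat.one_le_two_pow
      rw [pow_succ]
      omega)) α hα0 (by
        rw [e2]
        rw [pow_succ] at hα
        linarith)
    rw [e2] at hstep
    have hi := ih (fun t ht => hp t (ht.trans (by
      rw [pow_succ]
      omega))) (2 * α) (by positivity) (by
        rw [pow_succ] at hα
        linarith)
    refine hstep.trans ?_
    have h1 : (1 : ℝ) + 44 * 2 ^ k * α ≤ Real.exp (44 * 2 ^ k * α) := by
      have := Real.add_one_le_exp (44 * 2 ^ k * α)
      linarith
    calc Zk s (2 ^ k - 1) (2 * α) * (1 + 44 * 2 ^ k * α)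
        ≤ Real.exp ((22 * k + 1) * 2 ^ k * (2 * α)) * Real.exp (44 * 2 ^ k * α) := by
          gcongr
      _ = Real.exp ((22 * ((k + 1 : ℕ) : ℝ) + 1) * 2 ^ (k + 1) * α) := by
          rw [← Real.exp_add]
          congr 1
          push_cast
          rw [pow_succ]
          ring

end Pool.Agent.Q235.D2
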