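import Mathlib

/-!
# Paths of a symmetric random walk with four steps on a finite abelian group

`Ex s n x F` is the expectation of `F` on the list of the `n + 1` positions of the walk started
at `x`.
-/

set_option autoImplicit false

open scoped BigOperators

namespace Pool.Agent.Q235.D2

variable {A : Type*} [AddCommGroup A]

/-- the expectation of `F` on the list of the first `n + 1` positions of the walk from `x` -/
noncomputable def Ex (s : Fin 4 → A) : ℕ → A → (List A → ℝ) → ℝ
  | 0, x, F => F [x]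
  | n + 1, x, F => (1 / 4) * ∑ i, Ex s n (x + s i) (fun l => F (x :: l))

theorem Ex_zero (s : Fin 4 → A) (x : A) (F : List A → ℝ) : Ex s 0 x F = F [x] := rfl

theorem Ex_succ (s : Fin 4 → A) (n : ℕ) (x : A) (F : List A → ℝ) :
    Ex s (n + 1) x F = (1 / 4) * ∑ i, Ex s n (x + s i) (fun l => F (x :: l)) := rfl

theorem Ex_congr (s : Fin 4 → A) : ∀ (n : ℕ) (x : A) (F G : List A → ℝ),
    (∀ l : List A, l.length = n → F (x :: l) = G (x :: l)) → Ex s n x F = Ex s n x G
  | 0, x, F, G, h => by rw [Ex_zero, Ex_zero]; exact h [] rfl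
  | n + 1, x, F, G, h => by
    rw [Ex_succ, Ex_succ]
    congr 1
    refine Finset.sum_congr rfl fun i _ => Ex_congr s n (x + s i) _ _ fun l hl => ?_
    exact h _ (by simp [hl])

theorem Ex_mono (s : Fin 4 → A) : ∀ (n : ℕ) (x : A) (F G : List A → ℝ),
    (∀ l : List A, l.length = n → F (x :: l) ≤ G (x :: l)) → Ex s n x F ≤ Ex s n x G
  | 0, x, F, G, h => by rw [Ex_zero, Ex_zero]; exact h [] rfl
  | n + 1, x, F, G, h => by
    rw [Ex_succ, Ex_succ]
    have h1 : ∑ i, Ex s n (x + s i) (fun l => F (x :: l)) ≤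
        ∑ i, Ex s n (x + s i) (fun l => G (x :: l)) :=
      Finset.sum_le_sum fun i _ => Ex_mono s n (x + s i) _ _ fun l hl => h _ (by simp [hl])
    linarith

theorem Ex_const (s : Fin 4 → A) (c : ℝ) : ∀ (n : ℕ) (x : A), Ex s n x (fun _ => c) = c
  | 0, x => rfl
  | n + 1, x => by
    rw [Ex_succ]
    simp only [Ex_const s c n]
    rw [Finset.sum_const, Finset.card_univ, Fintype.card_fin, nsmul_eq_mul]
    push_cast
    ring

theorem Ex_add (s : Fin 4 → A) : ∀ (n : ℕ) (x : A) (F G : List A → ℝ),
    Ex s n x (fun l => F l + G l) = Ex s n x F + Ex s n x G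
  | 0, x, F, G => rfl
  | n + 1, x, F, G => by
    rw [Ex_succ, Ex_succ, Ex_succ, ← mul_add, ← Finset.sum_add_distrib]
    congr 1
    exact Finset.sum_congr rfl fun i _ => Ex_add s n (x + s i) _ _

theorem Ex_smul (s : Fin 4 → A) (c : ℝ) : ∀ (n : ℕ) (x : A) (F : List A → ℝ),
    Ex s n x (fun l => c * F l) = c * Ex s n x F
  | 0, x, F => rfl
  | n + 1, x, F => by
    rw [Ex_succ, Ex_succ]
    have h : ∑ i, Ex s n (x + s i) (fun l => c * F (x :: l)) =
        c * ∑ i, Ex s n (x + s i) (fun l => F (x :: l)) := by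
      rw [Finset.mul_sum]
      exact Finset.sum_congr rfl fun i _ => Ex_smul s c n (x + s i) _
    rw [h]
    ring

theorem Ex_sum (s : Fin 4 → A) {ι : Type*} (t : Finset ι) (n : ℕ) (x : A)
    (F : ι → List A → ℝ) :
    Ex s n x (fun l => ∑ i ∈ t, F i l) = ∑ i ∈ t, Ex s n x (F i) := by
  classical
  induction t using Finset.induction_on with
  | empty => simp only [Finset.sum_empty]; exact Ex_const s 0 n x
  | insert a t ha ih =>
    simp only [Finset.sum_insert ha]
    rw [Ex_add, ih]

theorem Ex_nonneg (s : Fin 4 → A) (n : ℕ) (x : A) (F : List A → ℝ)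
    (h : ∀ l : List A, l.length = n → 0 ≤ F (x :: l)) : 0 ≤ Ex s n x F := by
  have h1 := Ex_mono s n x (fun _ => 0) F h
  rwa [Ex_const] at h1

/-- the last element -/
def lst (l : List A) : A := l.getLastD 0

theorem lst_cons (x y : A) (l : List A) : lst (x :: y :: l) = lst (y :: l) := by
  unfold lst
  simp

theorem lst_single (x : A) : lst [x] = x := rfl

theorem lst_append (l : List A) (x : A) : lst (l ++ [x]) = x := by
  unfold lst
  simp

/-- concatenation of paths -/
theorem Ex_concat (s : Fin 4 → A) (n : ℕ) : ∀ (m : ℕ) (x : A) (F : List A → ℝ),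
    Ex s (m + n + 1) x F =
      Ex s m x (fun l => (1 / 4) * ∑ i, Ex s n (lst l + s i) (fun l' => F (l ++ l')))
  | 0, x, F => by
    rw [Ex_zero, zero_add, Ex_succ, lst_single]
    rfl
  | m + 1, x, F => by
    have e : m + 1 + n + 1 = (m + n + 1) + 1 := by ring
    rw [e, Ex_succ, Ex_succ]
    congr 1
    refine Finset.sum_congr rfl fun i _ => ?_
    rw [Ex_concat s n m (x + s i)]
    refine Ex_congr s m _ _ _ fun l _ => ?_
    rw [lst_cons]
    rfl

/-- the tail recursion -/
theorem Ex_tail (s : Fin 4 → A) (m : ℕ) (x : A) (F : List A → ℝ) :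
    Ex s (m + 1) x F = Ex s m x (fun l => (1 / 4) * ∑ i, F (l ++ [lst l + s i])) :=
  Ex_concat s 0 m x F

/-- translation invariance -/
theorem Ex_shift (s : Fin 4 → A) (u : A) : ∀ (n : ℕ) (x : A) (F : List A → ℝ),
    Ex s n (x + u) F = Ex s n x (fun l => F (l.map (· + u)))
  | 0, x, F => rfl
  | n + 1, x, F => by
    rw [Ex_succ, Ex_succ]
    congr 1
    refine Finset.sum_congr rfl fun i _ => ?_
    rw [add_right_comm, Ex_shift s u n (x + s i)]
    rfl

/-- reversal of the paths -/
theorem Ex_rev [Fintype A] (s : Fin 4 → A) (nu : Fin 4 ≃ Fin 4) (hs : ∀ i, s (nu i) = -s i) :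
    ∀ (n : ℕ) (F : List A → ℝ),
    ∑ x, Ex s n x F = ∑ x, Ex s n x (fun l => F l.reverse)
  | 0, F => rfl
  | n + 1, F => by
    have h1 : ∑ x, Ex s (n + 1) x F =
        ∑ x, Ex s n x (fun l => (1 / 4) * ∑ i, F ((l.headD 0 - s i) :: l)) := by
      calc ∑ x, Ex s (n + 1) x F
          = ∑ x, (1 / 4) * ∑ i, Ex s n (x + s i) (fun l => F (x :: l)) := rfl
        _ = (1 / 4) * ∑ i, ∑ x, Ex s n (x + s i) (fun l => F (x :: l)) := by
            rw [← Finset.mul_sum, Finset.sum_comm]
        _ = (1 / 4) * ∑ i, ∑ x, Ex s n x (fun l => F ((x - s i) :: l)) := by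
            congr 1
            refine Finset.sum_congr rfl fun i _ => ?_
            refine Fintype.sum_equiv (Equiv.addRight (s i)) _ _ fun x => ?_
            simp
        _ = ∑ x, (1 / 4) * ∑ i, Ex s n x (fun l => F ((x - s i) :: l)) := by
            rw [← Finset.mul_sum, Finset.sum_comm]
        _ = _ := by
            refine Finset.sum_congr rfl fun x _ => ?_
            rw [Ex_smul, Ex_sum]
            congr 1
            refine Finset.sum_congr rfl fun i _ => ?_
            refine Ex_congr s n x _ _ fun l _ => ?_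
            rfl
    rw [h1, Ex_rev s nu hs n]
    refine Finset.sum_congr rfl fun x _ => ?_
    rw [Ex_tail]
    refine Ex_congr s n x _ _ fun l _ => ?_
    congr 1
    have h2 : (x :: l).reverse.headD 0 = lst (x :: l) := by
      unfold lst
      rw [List.headD_eq_head?_getD, List.head?_reverse, List.getLastD_eq_getLast?]
    rw [h2]
    refine Fintype.sum_equiv nu _ _ fun i => ?_
    rw [hs i]
    simp [sub_eq_add_neg]

end Pool.Agent.Q235.D2
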